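import Mathlib

set_option autoImplicit false

/-! # Symbols of translation invariant kernels and their autocorrelations -/

namespace Pool.Agent.E8helper29.DT

open MeasureTheory Set Filter Topology

/-- symbols: densities with values in `[0, 1]` -/
structure Symb (f : ℝ → ℝ) : Prop where
  meas : Measurable f
  nonneg : ∀ t, 0 ≤ f t
  le_one : ∀ t, f t ≤ 1
  int : Integrable f
  one : ∫ t, f t = 1

/-- autocorrelation -/
noncomputable def AC (f : ℝ → ℝ) (α : ℝ) : ℝ := ∫ t, f t * f (t + α)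

/-- the kernel -/
noncomputable def KK (f : ℝ → ℝ) (x : ℝ) : ℂ := ∫ t, (f t : ℂ) * Complex.exp (2 * Real.pi * x * t * Complex.I)

variable {f : ℝ → ℝ}

lemma Symb.abs_le (h : Symb f) (t : ℝ) : |f t| ≤ 1 := by
  rw [abs_of_nonneg (h.nonneg t)]; exact h.le_one t

lemma Symb.mul_int (h : Symb f) (α : ℝ) : Integrable fun t => f t * f (t + α) := by
  refine h.int.mul_bdd (c := 1) ?_ (Eventually.of_forall fun _ => ?_)
  · exact (h.meas.comp (measurable_id.add_const α)).aestronglyMeasurable
  · rw [Real.norm_eq_abs]; exact h.abs_le _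

lemma AC_even (α : ℝ) : AC f (-α) = AC f α := by
  unfold AC
  rw [← integral_add_right_eq_self (fun t => f t * f (t + -α)) α]
  congr 1
  funext t
  rw [add_neg_cancel_right, mul_comm]

lemma AC_nonneg (h : Symb f) (α : ℝ) : 0 ≤ AC f α :=
  integral_nonneg fun t => mul_nonneg (h.nonneg _) (h.nonneg _)

lemma AC_le_one (h : Symb f) (α : ℝ) : AC f α ≤ 1 := by
  rw [← h.one]
  apply integral_mono (h.mul_int α) h.int
  intro t
  exact mul_le_of_le_one_right (h.nonneg t) (h.le_one _)

/-- the shear -/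
lemma shear_int (h : Symb f) (g : ℝ → ℂ) (hg : Measurable g) (hgb : ∀ x, ‖g x‖ ≤ 1) :
    Integrable (fun z : ℝ × ℝ => ((f z.1 * f (z.1 + z.2) : ℝ) : ℂ) * g z.2) (volume.prod volume) ∧
    ∫ z : ℝ × ℝ, ((f z.1 * f (z.1 + z.2) : ℝ) : ℂ) * g z.2 ∂(volume.prod volume) =
      ∫ z : ℝ × ℝ, ((f z.1 * f z.2 : ℝ) : ℂ) * g (z.2 - z.1) ∂(volume.prod volume) := by
  have hmp : MeasurePreserving (fun z : ℝ × ℝ => (z.1, z.1 + z.2)) (volume.prod volume)
      (volume.prod volume) := measurePreserving_prod_add volume volume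
  have hme : MeasurableEmbedding (fun z : ℝ × ℝ => (z.1, z.1 + z.2)) :=
    (MeasurableEquiv.shearAddRight ℝ).measurableEmbedding
  have h1 : Integrable (fun z : ℝ × ℝ => ((f z.1 * f z.2 : ℝ) : ℂ) * g (z.2 - z.1))
      (volume.prod volume) := by
    refine Integrable.mul_bdd (c := 1) ?_ ?_ (Eventually.of_forall fun z => hgb _)
    · exact (h.int.mul_prod h.int).ofReal
    · exact (hg.comp (measurable_snd.sub measurable_fst)).aestronglyMeasurable
  have h2 := hmp.integrable_comp_of_integrable h1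
  have h3 := hmp.integral_comp hme (fun z : ℝ × ℝ => ((f z.1 * f z.2 : ℝ) : ℂ) * g (z.2 - z.1))
  have e : ((fun z : ℝ × ℝ => ((f z.1 * f z.2 : ℝ) : ℂ) * g (z.2 - z.1)) ∘
      fun z : ℝ × ℝ => (z.1, z.1 + z.2)) =
      fun z : ℝ × ℝ => ((f z.1 * f (z.1 + z.2) : ℝ) : ℂ) * g z.2 := by
    funext z
    simp
  rw [e] at h2
  refine ⟨h2, ?_⟩
  rw [← h3]
  congr 1
  funext z
  simp

/-- the phase -/
noncomputable def ph (x y : ℝ) : ℂ := Complex.exp (2 * Real.pi * x * y * Complex.I)

lemma ph_eq (x y : ℝ) : ph x y = Complex.exp (((2 * Real.pi * x * y : ℝ) : ℂ) * Complex.I) := by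
  unfold ph
  push_cast
  rfl

lemma ph_norm (x y : ℝ) : ‖ph x y‖ = 1 := by
  rw [ph_eq, Complex.norm_exp_ofReal_mul_I]

lemma ph_add (x y z : ℝ) : ph x (y + z) = ph x y * ph x z := by
  unfold ph
  rw [← Complex.exp_add]
  congr 1
  push_cast
  ring

lemma ph_neg (x y : ℝ) : ph x (-y) = (starRingEnd ℂ) (ph x y) := by
  rw [ph_eq, ph_eq, ← Complex.exp_conj, map_mul, Complex.conj_I, Complex.conj_ofReal]
  congr 1
  push_cast
  ring

lemma ph_re (x y : ℝ) : (ph x y).re = Real.cos (2 * Real.pi * x * y) := by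
  rw [ph_eq, Complex.exp_ofReal_mul_I_re]

lemma ph_cont2 : Continuous fun p : ℝ × ℝ => ph p.1 p.2 := by
  unfold ph
  fun_prop

lemma ph_meas (x : ℝ) : Measurable (ph x) := by
  have : Continuous (ph x) := by
    unfold ph
    fun_prop
  exact this.measurable

lemma KK_eq (x : ℝ) : KK f x = ∫ t, (f t : ℂ) * ph x t := rfl

lemma Symb.int_ph (h : Symb f) (x : ℝ) : Integrable fun t => (f t : ℂ) * ph x t := by
  refine h.int.ofReal.mul_bdd (c := 1) (ph_meas x).aestronglyMeasurable
    (Eventually.of_forall fun t => (ph_norm x t).le)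

lemma Symb.KK_cont (h : Symb f) : Continuous (KK f) := by
  have e : KK f = fun x => ∫ t, (f t : ℂ) * ph x t := rfl
  rw [e]
  refine continuous_of_dominated (bound := fun t => ‖f t‖) (fun x => ?_) (fun x => ?_) h.int.norm ?_
  · exact (h.int_ph x).aestronglyMeasurable
  · refine Eventually.of_forall fun t => ?_
    rw [norm_mul, ph_norm, mul_one, Complex.norm_real]
  · refine Eventually.of_forall fun t => ?_
    have : Continuous fun x => ph x t := by
      unfold ph
      fun_prop
    exact continuous_const.mul this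

lemma Symb.KK_zero (h : Symb f) : KK f 0 = 1 := by
  rw [KK_eq]
  have : ∀ t, (f t : ℂ) * ph 0 t = ((f t : ℝ) : ℂ) := by
    intro t
    unfold ph
    simp
  simp_rw [this]
  rw [integral_complex_ofReal, h.one]
  simp

lemma Symb.KK_norm_le (h : Symb f) (x : ℝ) : ‖KK f x‖ ≤ 1 := by
  rw [KK_eq]
  refine (norm_integral_le_integral_norm _).trans ?_
  rw [← h.one]
  apply le_of_eq
  congr 1
  funext t
  rw [norm_mul, ph_norm, mul_one, Complex.norm_real, Real.norm_eq_abs, abs_of_nonneg (h.nonneg t)]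

lemma KK_neg (x : ℝ) : KK f (-x) = (starRingEnd ℂ) (KK f x) := by
  rw [KK_eq, KK_eq, ← integral_conj]
  congr 1
  funext t
  rw [map_mul, Complex.conj_ofReal, ← ph_neg]
  congr 1
  unfold ph
  congr 1
  push_cast
  ring

/-- integrals against the autocorrelation -/
lemma AC_gen (h : Symb f) (g : ℝ → ℂ) (hg : Measurable g) (hgb : ∀ x, ‖g x‖ ≤ 1) :
    Integrable (AC f) ∧ Integrable (fun z : ℝ × ℝ => ((f z.1 * f z.2 : ℝ) : ℂ) * g (z.2 - z.1))
      (volume.prod volume) ∧
    ∫ α, ((AC f α : ℝ) : ℂ) * g α =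
      ∫ z : ℝ × ℝ, ((f z.1 * f z.2 : ℝ) : ℂ) * g (z.2 - z.1) ∂(volume.prod volume) := by
  obtain ⟨h1, h2⟩ := shear_int h g hg hgb
  obtain ⟨h1', -⟩ := shear_int h (fun _ => 1) measurable_const (fun _ => by simp)
  simp only [mul_one] at h1'
  have e : (fun y : ℝ => ∫ z : ℝ, ((f z * f (z + y) : ℝ) : ℂ)) = fun y => ((AC f y : ℝ) : ℂ) := by
    funext y
    unfold AC
    exact integral_complex_ofReal
  have h3 := h1'.integral_prod_right
  have h3' : Integrable (fun y => ((AC f y : ℝ) : ℂ)) := by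
    rw [← e]
    exact h3
  have h4 : Integrable (AC f) := h3'.re
  have h7 : Integrable (fun z : ℝ × ℝ => ((f z.1 * f z.2 : ℝ) : ℂ) * g (z.2 - z.1))
      (volume.prod volume) := by
    refine Integrable.mul_bdd (c := 1) ?_ ?_ (Eventually.of_forall fun z => hgb _)
    · exact (h.int.mul_prod h.int).ofReal
    · exact (hg.comp (measurable_snd.sub measurable_fst)).aestronglyMeasurable
  refine ⟨h4, h7, ?_⟩
  have h5 := integral_prod_symm _ h1
  rw [← h2, h5]
  congr 1
  funext y
  show ((AC f y : ℝ) : ℂ) * g y = ∫ z : ℝ, ((f z * f (z + y) : ℝ) : ℂ) * g y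
  rw [integral_mul_const]
  congr 1
  exact (congrFun e y).symm

/-- the Fourier transform of the autocorrelation -/
lemma AC_fourier (h : Symb f) (x : ℝ) : Integrable (AC f) ∧
    ∫ α, ((AC f α : ℝ) : ℂ) * ph x α = ((‖KK f x‖ ^ 2 : ℝ) : ℂ) := by
  obtain ⟨h4, -, h5⟩ := AC_gen h (ph x) (ph_meas x) (fun y => (ph_norm x y).le)
  refine ⟨h4, ?_⟩
  rw [h5]
  have e1 : ∀ z : ℝ × ℝ, ((f z.1 * f z.2 : ℝ) : ℂ) * ph x (z.2 - z.1) =
      ((starRingEnd ℂ) ((f z.1 : ℂ) * ph x z.1)) * ((f z.2 : ℂ) * ph x z.2) := by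
    intro z
    rw [sub_eq_add_neg, ph_add, ph_neg, map_mul, Complex.conj_ofReal]
    push_cast
    ring
  simp_rw [e1]
  rw [integral_prod_mul (fun t : ℝ => (starRingEnd ℂ) ((f t : ℂ) * ph x t))
    (fun t : ℝ => (f t : ℂ) * ph x t), integral_conj, ← KK_eq, Complex.conj_mul']
  push_cast
  rfl

lemma Symb.AC_integrable (h : Symb f) : Integrable (AC f) := (AC_fourier h 0).1

lemma Symb.AC_int_one (h : Symb f) : ∫ α, AC f α = 1 := by
  have h1 := (AC_fourier h 0).2
  have e : ∀ α, ((AC f α : ℝ) : ℂ) * ph 0 α = ((AC f α : ℝ) : ℂ) := by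
    intro α
    unfold ph
    simp
  simp_rw [e] at h1
  rw [integral_complex_ofReal, h.KK_zero] at h1
  simp at h1
  exact_mod_cast h1

lemma Symb.AC_cos (h : Symb f) (x : ℝ) :
    ∫ α, AC f α * Real.cos (2 * Real.pi * x * α) = ‖KK f x‖ ^ 2 := by
  have h1 := (AC_fourier h x).2
  have h2 := congrArg Complex.re h1
  rw [Complex.ofReal_re] at h2
  rw [← h2]
  have hi : Integrable fun α => ((AC f α : ℝ) : ℂ) * ph x α :=
    h.AC_integrable.ofReal.mul_bdd (c := 1) (ph_meas x).aestronglyMeasurable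
      (Eventually.of_forall fun t => (ph_norm x t).le)
  have h3 := integral_re hi
  simp only [RCLike.re_eq_complex_re] at h3
  rw [← h3]
  congr 1
  funext α
  rw [Complex.re_ofReal_mul, ph_re]

/-- primitive of the symbol -/
noncomputable def Pr (f : ℝ → ℝ) (x : ℝ) : ℝ := ∫ t in Iic x, f t

lemma Symb.Pr_cont (h : Symb f) : Continuous (Pr f) := by
  have e : Pr f = fun x => Pr f 0 + ∫ t in (0 : ℝ)..x, f t := by
    funext x
    have := intervalIntegral.integral_Iic_sub_Iic (μ := volume) (f := f) (a := 0) (b := x)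
      h.int.integrableOn h.int.integrableOn
    unfold Pr
    linarith
  rw [e]
  exact continuous_const.add (intervalIntegral.continuous_primitive
    (fun a b => h.int.intervalIntegrable) 0)

lemma Symb.Pr_mono (h : Symb f) : Monotone (Pr f) := by
  intro x y hxy
  exact setIntegral_mono_set h.int.integrableOn (Eventually.of_forall h.nonneg)
    (HasSubset.Subset.eventuallyLE (Iic_subset_Iic.2 hxy))

lemma Symb.Pr_nonneg (h : Symb f) (x : ℝ) : 0 ≤ Pr f x := integral_nonneg fun t => h.nonneg t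

lemma Symb.Pr_compl (h : Symb f) (x : ℝ) : ∫ t in Ioi x, f t = 1 - Pr f x := by
  have := integral_add_compl (s := Iic x) measurableSet_Iic h.int
  rw [compl_Iic, h.one] at this
  unfold Pr
  linarith

lemma Symb.Pr_top (h : Symb f) : Tendsto (Pr f) atTop (𝓝 1) := by
  have := (aecover_Iic (μ := volume) (tendsto_id (α := ℝ) (x := atTop))).integral_tendsto_of_countably_generated h.int
  rw [h.one] at this
  exact this

lemma Symb.Pr_bot (h : Symb f) : Tendsto (Pr f) atBot (𝓝 0) := by
  have h1 := (aecover_Ioi (μ := volume) (tendsto_id (α := ℝ) (x := atBot))).integral_tendsto_of_countably_generated h.int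
  rw [h.one] at h1
  have h2 := h1.const_sub 1
  rw [sub_self] at h2
  refine h2.congr fun x => ?_
  show 1 - ∫ t in Ioi x, f t = Pr f x
  rw [h.Pr_compl]
  ring

lemma Symb.Pr_dich (h : Symb f) (hz : ∫ α in {α : ℝ | 1 < |α|}, AC f α = 0) (x : ℝ) :
    Pr f x = 0 ∨ Pr f (x + 1) = 1 := by
  have hA : MeasurableSet {α : ℝ | 1 < |α|} := (isOpen_lt continuous_const continuous_abs).measurableSet
  obtain ⟨-, hi, he⟩ := AC_gen h ({α : ℝ | 1 < |α|}.indicator fun _ => (1 : ℂ))
    (measurable_const.indicator hA) (fun y => by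
      by_cases hy : y ∈ {α : ℝ | 1 < |α|}
      · rw [indicator_of_mem hy]; simp
      · rw [indicator_of_notMem hy]; simp)
  have e1 : ∫ α, ((AC f α : ℝ) : ℂ) * ({α : ℝ | 1 < |α|}.indicator fun _ => (1 : ℂ)) α = 0 := by
    have : ∀ α, ((AC f α : ℝ) : ℂ) * ({α : ℝ | 1 < |α|}.indicator fun _ => (1 : ℂ)) α =
        (({α : ℝ | 1 < |α|}.indicator (AC f) α : ℝ) : ℂ) := by
      intro α
      by_cases hy : α ∈ {α : ℝ | 1 < |α|}
      · rw [indicator_of_mem hy, indicator_of_mem hy]; simp
      · rw [indicator_of_notMem hy, indicator_of_notMem hy]; simp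
    simp_rw [this]
    rw [integral_complex_ofReal, integral_indicator hA, hz]
    simp
  rw [e1] at he
  have h2 := congrArg Complex.re he
  have h3 := integral_re hi
  simp only [RCLike.re_eq_complex_re] at h3
  rw [← h3] at h2
  simp only [Complex.zero_re] at h2
  have hre : ∀ z : ℝ × ℝ, (((f z.1 * f z.2 : ℝ) : ℂ) *
      ({α : ℝ | 1 < |α|}.indicator fun _ => (1 : ℂ)) (z.2 - z.1)).re =
      (f z.1 * f z.2) * ({α : ℝ | 1 < |α|}.indicator fun _ => (1 : ℝ)) (z.2 - z.1) := by
    intro z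
    by_cases hy : z.2 - z.1 ∈ {α : ℝ | 1 < |α|}
    · rw [indicator_of_mem hy, indicator_of_mem hy]; simp
    · rw [indicator_of_notMem hy, indicator_of_notMem hy]; simp
  have hi2 := hi.re
  simp only [RCLike.re_eq_complex_re] at hi2
  simp_rw [hre] at h2 hi2
  have h4 : ∫ z : ℝ × ℝ, ((Iic x).indicator f z.1) * ((Ioi (x + 1)).indicator f z.2) ∂(volume.prod volume) ≤ 0 := by
    rw [h2]
    apply integral_mono
    · exact (h.int.indicator measurableSet_Iic).mul_prod (h.int.indicator measurableSet_Ioi)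
    · exact hi2
    · intro z
      show ((Iic x).indicator f z.1) * ((Ioi (x + 1)).indicator f z.2) ≤
        (f z.1 * f z.2) * ({α : ℝ | 1 < |α|}.indicator fun _ => (1 : ℝ)) (z.2 - z.1)
      have h0 : 0 ≤ (f z.1 * f z.2) * ({α : ℝ | 1 < |α|}.indicator fun _ => (1 : ℝ)) (z.2 - z.1) := by
        apply mul_nonneg (mul_nonneg (h.nonneg _) (h.nonneg _))
        exact indicator_nonneg (fun _ _ => zero_le_one) _
      by_cases h1 : z.1 ∈ Iic x
      · by_cases h2 : z.2 ∈ Ioi (x + 1)
        · have h3 : z.2 - z.1 ∈ {α : ℝ | 1 < |α|} := by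
            have h4 : z.1 ≤ x := h1
            have h5 : x + 1 < z.2 := h2
            have h6 : 1 < z.2 - z.1 := by linarith
            exact h6.trans_le (le_abs_self _)
          rw [indicator_of_mem h1, indicator_of_mem h2, indicator_of_mem h3, mul_one]
        · rw [indicator_of_notMem h2, mul_zero]
          exact h0
      · rw [indicator_of_notMem h1, zero_mul]
        exact h0
  rw [integral_prod_mul, integral_indicator measurableSet_Iic, integral_indicator measurableSet_Ioi,
    h.Pr_compl] at h4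
  have h5 := h.Pr_nonneg x
  have h6 : 0 ≤ 1 - Pr f (x + 1) := by
    rw [← h.Pr_compl]
    exact integral_nonneg fun t => h.nonneg t
  have h7 : Pr f x * (1 - Pr f (x + 1)) ≤ 0 := h4
  have h8 : Pr f x * (1 - Pr f (x + 1)) = 0 := le_antisymm h7 (mul_nonneg h5 h6)
  rcases mul_eq_zero.1 h8 with h9 | h9
  · exact Or.inl h9
  · right; linarith

/-- support of the symbol when the autocorrelation vanishes outside `[-1, 1]` -/
theorem Symb.interval (h : Symb f) (hz : ∫ α in {α : ℝ | 1 < |α|}, AC f α = 0) :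
    ∃ c : ℝ, f =ᵐ[volume] (Icc c (c + 1)).indicator 1 := by
  -- the left end point
  have hlow : ∃ x, Pr f x = 0 := by
    have h1 : ∀ᶠ x in atBot, Pr f x < 1 := h.Pr_bot.eventually (gt_mem_nhds one_pos)
    obtain ⟨y, hy⟩ := h1.exists
    rcases h.Pr_dich hz (y - 1) with h2 | h2
    · exact ⟨_, h2⟩
    · rw [sub_add_cancel] at h2
      exact absurd h2 hy.ne
  have hup : ∃ b, 0 < Pr f b := (h.Pr_top.eventually (lt_mem_nhds one_pos)).exists
  obtain ⟨x0, hx0⟩ := hlow
  obtain ⟨b0, hb0⟩ := hup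
  set S : Set ℝ := {x | Pr f x = 0} with hS
  have hbdd : BddAbove S := by
    refine ⟨b0, fun x hx => ?_⟩
    by_contra hcon
    push Not at hcon
    have h1 := h.Pr_mono hcon.le
    have h2 : Pr f x = 0 := hx
    linarith
  have hclosed : IsClosed S := isClosed_eq h.Pr_cont continuous_const
  set c := sSup S with hc
  have hcS : Pr f c = 0 := hclosed.csSup_mem ⟨x0, hx0⟩ hbdd
  have hc1 : Pr f (c + 1) = 1 := by
    have h1 : Tendsto (fun y => Pr f (y + 1)) (𝓝[>] c) (𝓝 (Pr f (c + 1))) := by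
      have : Continuous fun y => Pr f (y + 1) := h.Pr_cont.comp (continuous_id.add continuous_const)
      exact this.continuousAt.tendsto.mono_left nhdsWithin_le_nhds
    refine tendsto_nhds_unique h1 ?_
    refine tendsto_const_nhds.congr' ?_
    filter_upwards [self_mem_nhdsWithin] with y hy
    rcases h.Pr_dich hz y with h2 | h2
    · exact absurd (le_csSup hbdd h2) (not_le.2 hy)
    · exact h2.symm
  have hmid : ∫ t in Ioc c (c + 1), f t = 1 := by
    have := intervalIntegral.integral_Iic_sub_Iic (μ := volume) (f := f) (a := c) (b := c + 1)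
      h.int.integrableOn h.int.integrableOn
    rw [intervalIntegral.integral_of_le (by linarith)] at this
    rw [← this]
    show Pr f (c + 1) - Pr f c = 1
    rw [hcS, hc1]
    ring
  have hone : ∀ᵐ t ∂(volume.restrict (Ioc c (c + 1))), 1 - f t = 0 := by
    have h1 : ∫ t in Ioc c (c + 1), (1 - f t) = 0 := by
      rw [integral_sub (by simp) h.int.integrableOn, hmid]
      simp
    have h2 := (setIntegral_eq_zero_iff_of_nonneg_ae (μ := volume) (s := Ioc c (c + 1))
      (f := fun t => 1 - f t) (Eventually.of_forall fun t => by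
        show (0 : ℝ) ≤ 1 - f t
        linarith [h.le_one t]) (by
        apply Integrable.sub
        · simp
        · exact h.int.integrableOn)).1 h1
    exact h2
  have hzero : ∀ᵐ t ∂(volume.restrict (Ioc c (c + 1))ᶜ), f t = 0 := by
    have h1 : ∫ t in (Ioc c (c + 1))ᶜ, f t = 0 := by
      have := integral_add_compl (s := Ioc c (c + 1)) measurableSet_Ioc h.int
      rw [hmid, h.one] at this
      linarith
    exact (setIntegral_eq_zero_iff_of_nonneg_ae (Eventually.of_forall fun t => h.nonneg t)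
      h.int.integrableOn).1 h1
  refine ⟨c, ?_⟩
  rw [ae_restrict_iff' measurableSet_Ioc] at hone
  rw [ae_restrict_iff' measurableSet_Ioc.compl] at hzero
  have hne : ∀ᵐ t : ℝ, t ≠ c := by
    rw [ae_iff]
    simp
  filter_upwards [hone, hzero, hne] with t h1 h2 h3
  by_cases ht : t ∈ Ioc c (c + 1)
  · rw [indicator_of_mem (Ioc_subset_Icc_self ht)]
    have := h1 ht
    simp only [Pi.one_apply]
    linarith
  · rw [h2 ht, indicator_of_notMem]
    intro h4
    apply ht
    exact ⟨lt_of_le_of_ne h4.1 h3.symm, h4.2⟩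

end Pool.Agent.E8helper29.DT
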