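import Pool.Agent.E8helper29.DT.PairRH
import Pool.Agent.E8helper28.GS.Lim
import Pool.Agent.E8helper29.FF.Tfae

set_option autoImplicit false

/-! # From the gaps to the pairs of zeros -/

namespace Pool.Agent.E8helper29.DT

open MeasureTheory Filter Topology
open SG (ord NZ zmult ZS)
open W200.HW (Ix mem_Ix pairs_le)
open Pool.Agent.E8helper72.PC
open H177.Lat (xlog_low)
open Pool.Agent.E8helper28.GS (xlog_high)

/-- the `k`-step gaps -/
noncomputable def dk (k n : ℕ) : ℝ :=
  (ord (n + k) * Real.log (ord (n + k)) - ord n * Real.log (ord n)) / (2 * Real.pi)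

/-- the proportion of the `k`-step gaps in `(a, b]` -/
noncomputable def PK (N k : ℕ) (a b : ℝ) : ℝ :=
  (((Finset.Icc 1 N).filter (fun n => a < dk k n ∧ dk k n ≤ b)).card : ℝ) / N

lemma PK_mem (N k : ℕ) (a b : ℝ) : 0 ≤ PK N k a b ∧ PK N k a b ≤ 1 := by
  unfold PK
  constructor
  · positivity
  · apply div_le_one_of_le₀ _ (Nat.cast_nonneg _)
    have h := Finset.card_filter_le (Finset.Icc 1 N) (fun n => a < dk k n ∧ dk k n ≤ b)
    rw [Nat.card_Icc, Nat.add_sub_cancel] at h
    exact_mod_cast h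

lemma ZT_eq (T : ℝ) : ZT T = (SG.ZS_finite T).toFinset := by
  ext s
  rw [mem_ZT, Set.Finite.mem_toFinset]
  unfold H370.zset SG.ZS
  simp only [Set.mem_ofPred_eq]
  tauto

lemma NT_NZ (T : ℝ) : NT T = (NZ T : ℝ) := by
  unfold NT
  rw [SG.NZ_eq, ZT_eq]
  push_cast
  rfl

/-- the index pairs -/
lemma cw_pairs (RH : RiemannHypothesis) {T : ℝ} (hT : 10 ≤ T) (α β : ℝ) :
    (((Ix T ×ˢ Ix T).filter (fun p : ℕ × ℕ =>
      α ≤ |ord p.1 - ord p.2| * Real.log T / (2 * Real.pi) ∧
      |ord p.1 - ord p.2| * Real.log T / (2 * Real.pi) ≤ β)).card : ℝ) ≤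
      2 * XX T * cw (SS T) (wn T) (xn T) α β := by
  classical
  have hX := XX_pos hT
  have h1 := pairs_le RH T (fun x y => α ≤ |x - y| * Real.log T / (2 * Real.pi) ∧
    |x - y| * Real.log T / (2 * Real.pi) ≤ β)
  have h2 : 2 * XX T * cw (SS T) (wn T) (xn T) α β =
      ∑ s ∈ (SG.ZS_finite T).toFinset, ∑ s' ∈ (SG.ZS_finite T).toFinset,
        (if (α ≤ |s.im - s'.im| * Real.log T / (2 * Real.pi) ∧
          |s.im - s'.im| * Real.log T / (2 * Real.pi) ≤ β) then (zmult s * zmult s' : ℝ) else 0) := by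
    unfold cw
    rw [Finset.sum_filter, Finset.mul_sum]
    unfold SS
    rw [ZT_eq, Finset.sum_product]
    apply Finset.sum_congr rfl
    intro s _
    apply Finset.sum_congr rfl
    intro s' _
    unfold xn wn dd ww
    simp only
    split_ifs
    · rw [mul_div_cancel₀ _ (by positivity)]
      rfl
    · rw [mul_zero]
  rw [h2]
  have h3 : ((((Ix T ×ˢ Ix T).filter (fun p : ℕ × ℕ =>
      α ≤ |ord p.1 - ord p.2| * Real.log T / (2 * Real.pi) ∧
      |ord p.1 - ord p.2| * Real.log T / (2 * Real.pi) ≤ β)).card : ℕ) : ℝ) ≤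
      ((∑ s ∈ (SG.ZS_finite T).toFinset, ∑ s' ∈ (SG.ZS_finite T).toFinset,
        if (α ≤ |s.im - s'.im| * Real.log T / (2 * Real.pi) ∧
          |s.im - s'.im| * Real.log T / (2 * Real.pi) ≤ β) then zmult s * zmult s' else 0 : ℕ) : ℝ) := by
    exact_mod_cast h1
  refine h3.trans (le_of_eq ?_)
  push_cast
  rfl

/-- counting the index pairs -/
lemma count_pairs {T : ℝ} {N : ℕ} (hNT : N ≤ NZ T) (M : ℕ) (R : ℝ → Prop) [DecidablePred R]
    (P : ℕ → ℕ → Prop) [∀ k, DecidablePred (P k)]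
    (hP : ∀ k n, 1 ≤ n → n + (k + 1) ≤ N → P k n → R |ord (n + (k + 1)) - ord n|) :
    2 * ∑ k ∈ Finset.range M, ((Finset.Icc 1 N).filter (fun n => n + (k + 1) ≤ N ∧ P k n)).card ≤
      ((Ix T ×ˢ Ix T).filter (fun p : ℕ × ℕ => R |ord p.1 - ord p.2|)).card := by
  classical
  set F : ℕ → Finset ℕ := fun k => (Finset.Icc 1 N).filter (fun n => n + (k + 1) ≤ N ∧ P k n) with hF
  set A : Finset (Σ _ : ℕ, ℕ) := (Finset.range M).sigma F with hA
  have hcard : A.card = ∑ k ∈ Finset.range M, (F k).card := Finset.card_sigma _ _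
  set g1 : (Σ _ : ℕ, ℕ) → ℕ × ℕ := fun x => (x.2, x.2 + (x.1 + 1)) with hg1
  set g2 : (Σ _ : ℕ, ℕ) → ℕ × ℕ := fun x => (x.2 + (x.1 + 1), x.2) with hg2
  have hi1 : Function.Injective g1 := by
    rintro ⟨k, n⟩ ⟨k', n'⟩ h
    simp only [hg1, Prod.mk.injEq] at h
    obtain ⟨h1, h2⟩ := h
    have : k = k' := by omega
    subst this
    subst h1
    rfl
  have hi2 : Function.Injective g2 := by
    rintro ⟨k, n⟩ ⟨k', n'⟩ h
    simp only [hg2, Prod.mk.injEq] at h
    obtain ⟨h1, h2⟩ := h
    have : k = k' := by omega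
    subst this
    subst h2
    rfl
  have hmem : ∀ x ∈ A, 1 ≤ x.2 ∧ x.2 + (x.1 + 1) ≤ N ∧ P x.1 x.2 := by
    rintro ⟨k, n⟩ hx
    rw [hA, Finset.mem_sigma] at hx
    simp only [hF, Finset.mem_filter, Finset.mem_Icc] at hx
    exact ⟨hx.2.1.1, hx.2.2.1, hx.2.2.2⟩
  have hdisj : Disjoint (A.image g1) (A.image g2) := by
    rw [Finset.disjoint_left]
    intro p hp1 hp2
    obtain ⟨x, -, rfl⟩ := Finset.mem_image.1 hp1
    obtain ⟨y, -, h⟩ := Finset.mem_image.1 hp2
    simp only [hg1, hg2, Prod.mk.injEq] at h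
    omega
  have hsub : A.image g1 ∪ A.image g2 ⊆
      (Ix T ×ˢ Ix T).filter (fun p : ℕ × ℕ => R |ord p.1 - ord p.2|) := by
    intro p hp
    rw [Finset.mem_union] at hp
    rw [Finset.mem_filter, Finset.mem_product]
    have hIx : ∀ n, 1 ≤ n → n ≤ N → n ∈ Ix T := fun n h1 h2 => by
      unfold W200.HW.Ix
      rw [Finset.mem_Icc]
      exact ⟨h1, h2.trans hNT⟩
    rcases hp with hp | hp
    · obtain ⟨x, hx, rfl⟩ := Finset.mem_image.1 hp
      obtain ⟨h1, h2, h3⟩ := hmem x hx
      refine ⟨⟨hIx x.2 h1 (by omega), hIx (x.2 + (x.1 + 1)) (by omega) h2⟩, ?_⟩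
      show R |ord x.2 - ord (x.2 + (x.1 + 1))|
      rw [abs_sub_comm]
      exact hP _ _ h1 h2 h3
    · obtain ⟨x, hx, rfl⟩ := Finset.mem_image.1 hp
      obtain ⟨h1, h2, h3⟩ := hmem x hx
      refine ⟨⟨hIx (x.2 + (x.1 + 1)) (by omega) h2, hIx x.2 h1 (by omega)⟩, ?_⟩
      exact hP _ _ h1 h2 h3
  calc 2 * ∑ k ∈ Finset.range M, (F k).card = (A.image g1 ∪ A.image g2).card := by
        rw [Finset.card_union_of_disjoint hdisj, Finset.card_image_of_injective _ hi1,
          Finset.card_image_of_injective _ hi2, hcard]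
        ring
    _ ≤ _ := Finset.card_le_card hsub

/-- `N` against the height of the `N`-th zero -/
lemma N_asymp : Tendsto (fun N : ℕ => (N : ℝ) / XX (ord N)) atTop (𝓝 1) := by
  have hT := SG.ord_tendsto
  have h1 : Tendsto (fun N : ℕ => (NZ (ord N) : ℝ) / XX (ord N)) atTop (𝓝 1) := by
    have := NT_asymp.comp hT
    refine this.congr fun N => ?_
    simp only [Function.comp, NT_NZ]
  have h2 : Tendsto (fun N : ℕ => (NZ (ord N - 1) : ℝ) / XX (ord N - 1)) atTop (𝓝 1) := by
    have := NT_asymp.comp (tendsto_atTop_add_const_right _ (-1) hT)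
    refine this.congr fun N => ?_
    simp only [Function.comp, NT_NZ, ← sub_eq_add_neg]
  have h3 : Tendsto (fun T : ℝ => XX (T - 1) / XX T) atTop (𝓝 1) := by
    rw [Metric.tendsto_atTop]
    intro ε hε
    have hev : ∀ᶠ T : ℝ in atTop, |XX (T - 1) / XX T - 1| < ε := by
      filter_upwards [XX_large (1 / 5 * 1) (ε / 2) (by positivity), eventually_ge_atTop 20,
        XX_large 1 (ε / 4) (by positivity), eventually_ge_atTop (16 / ε)] with T h1 h2 h3 h4
      have hX := XX_pos (show 10 ≤ T by linarith)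
      have hL := log_ge (show 10 ≤ T by linarith)
      have hpi := Real.pi_gt_three
      -- `0 ≤ XX T - XX (T-1) ≤ (log T + 1)/(2π)`
      have h5 := xlog_high (show 0 < T - 1 by linarith) (show T - 1 ≤ T by linarith)
      have h6 := xlog_low (show 0 < T - 1 by linarith) (show T - 1 ≤ T by linarith)
      have h7 : 0 ≤ Real.log (T - 1) := Real.log_nonneg (by linarith)
      have e : XX T - XX (T - 1) = (T * Real.log T - (T - 1) * Real.log (T - 1)) / (2 * Real.pi) := by
        unfold XX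
        ring
      have h8 : 0 ≤ XX T - XX (T - 1) := by
        rw [e]
        apply div_nonneg _ (by positivity)
        nlinarith
      have h9 : XX T - XX (T - 1) ≤ (Real.log T + 1) / (2 * Real.pi) := by
        rw [e]
        apply div_le_div_of_nonneg_right _ (by positivity)
        nlinarith
      have h10 : (Real.log T + 1) / (2 * Real.pi) ≤ 2 * XX T / T := by
        unfold XX
        rw [le_div_iff₀ (by linarith), div_mul_eq_mul_div, mul_div_assoc', div_le_div_iff_of_pos_right (by positivity)]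
        nlinarith
      have h11 : 2 * XX T / T < ε * XX T := by
        rw [div_lt_iff₀ (by linarith)]
        have : 16 ≤ T * ε := by rwa [div_le_iff₀ hε] at h4
        nlinarith
      rw [abs_sub_comm, abs_of_nonneg]
      · rw [sub_lt_iff_lt_add, ← sub_lt_iff_lt_add', lt_div_iff₀ hX]
        linarith
      · rw [sub_nonneg, div_le_one hX]
        linarith
    obtain ⟨T0, hT0⟩ := hev.exists_forall_of_atTop
    exact ⟨T0, fun T hT => by rw [Real.dist_eq]; exact hT0 T hT⟩
  have h4 : Tendsto (fun N : ℕ => (NZ (ord N - 1) : ℝ) / XX (ord N)) atTop (𝓝 1) := by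
    have h5 := h2.mul (h3.comp hT)
    rw [mul_one] at h5
    refine h5.congr' ?_
    filter_upwards [hT.eventually_ge_atTop 20] with N hN
    have hX1 := XX_pos (show 10 ≤ ord N - 1 by linarith)
    simp only [Function.comp]
    field_simp
  refine tendsto_of_tendsto_of_tendsto_of_le_of_le' h4 h1 ?_ ?_
  · filter_upwards [hT.eventually_ge_atTop 20, eventually_ge_atTop 1] with N hN hN1
    have hX := XX_pos (show 10 ≤ ord N by linarith)
    apply div_le_div_of_nonneg_right _ hX.le
    have h5 : ¬ (ord N ≤ ord N - 1) := by linarith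
    rw [SG.ord_le_iff hN1] at h5
    push Not at h5
    exact_mod_cast h5.le
  · filter_upwards [hT.eventually_ge_atTop 20, eventually_ge_atTop 1] with N hN hN1
    have hX := XX_pos (show 10 ≤ ord N by linarith)
    apply div_le_div_of_nonneg_right _ hX.le
    exact_mod_cast SG.le_NZ_ord hN1

set_option maxHeartbeats 2000000 in
/-- **from the gaps to the pairs** -/
theorem bridge (RH : RiemannHypothesis) (M : ℕ) {α a b β ε : ℝ} (hα : 0 < α) (h1 : α < a)
    (hab : a < b) (h2 : b < β) (hε : 0 < ε) : ∀ᶠ N : ℕ in atTop,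
    ∑ k ∈ Finset.range M, PK N (k + 1) a b - ε ≤
      cw (SS (ord N)) (wn (ord N)) (xn (ord N)) α β := by
  classical
  have hT := SG.ord_tendsto
  set θ : ℝ := min (1 / 2) (ε / (8 * (M + 1))) with hθ
  have hM1 : (0 : ℝ) < (M : ℝ) + 1 := by positivity
  have hθ0 : 0 < θ := lt_min (by norm_num) (by positivity)
  have hθ1 : θ ≤ 1 / 2 := min_le_left _ _
  have hθ2 : θ * (8 * (M + 1)) ≤ ε := by
    have : θ ≤ ε / (8 * (M + 1)) := min_le_right _ _
    rwa [le_div_iff₀ (by positivity)] at this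
  have hlogθ : Real.log θ ≤ 0 := Real.log_nonpos hθ0.le (by linarith)
  have hlogT : Tendsto (fun N : ℕ => Real.log (ord N)) atTop atTop :=
    Real.tendsto_log_atTop.comp hT
  have c4 : ∀ᶠ N : ℕ in atTop, (NZ (θ * ord N) : ℝ) ≤ 2 * θ * XX (ord N) := by
    have h3 : Tendsto (fun N : ℕ => θ * ord N) atTop atTop := hT.const_mul_atTop hθ0
    have h4 := NT_asymp.comp h3
    filter_upwards [h4.eventually (gt_mem_nhds (show (1 : ℝ) < 2 by norm_num)),
      h3.eventually_ge_atTop 10, hT.eventually_ge_atTop 10] with N h5 h6 h7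
    have hX := XX_pos h6
    simp only [Function.comp] at h5
    rw [div_lt_iff₀ hX, NT_NZ] at h5
    refine h5.le.trans ?_
    rw [mul_assoc]
    apply mul_le_mul_of_nonneg_left _ (by norm_num)
    unfold XX
    rw [mul_div_assoc', Real.log_mul hθ0.ne' (by linarith)]
    apply div_le_div_of_nonneg_right _ (by positivity)
    nlinarith [mul_pos hθ0 (show 0 < ord N by linarith)]
  have c5 : ∀ᶠ N : ℕ in atTop, |(N : ℝ) / XX (ord N) - 1| < ε / (4 * (M + 1)) := by
    have := (Metric.tendsto_nhds.1 N_asymp) (ε / (4 * (M + 1))) (by positivity)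
    simpa [Real.dist_eq] using this
  have c6 : ∀ᶠ N : ℕ in atTop, ((M : ℝ) * M) * ord N ≤ ε / 4 * XX (ord N) :=
    hT.eventually (XX_large _ _ (by positivity))
  filter_upwards [hT.eventually_ge_atTop 10, hlogT.eventually_ge_atTop (α / (a - α)),
    hlogT.eventually_ge_atTop (β * (1 - Real.log θ) / (β - b)),
    hlogT.eventually_ge_atTop (1 - Real.log θ), c4, c5, c6, eventually_ge_atTop 1] with
    N d1 d2 d3 d3' d4 d5 d6 d7
  set T := ord N with hTdef
  set L := Real.log T with hL
  have hX := XX_pos d1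
  have hL1 := log_ge d1
  have hpi := Real.pi_pos
  have hN0 : (0 : ℝ) < N := by exact_mod_cast d7
  rw [div_le_iff₀ (by linarith)] at d2 d3
  -- the comparison
  have hP : ∀ k n, 1 ≤ n → n + (k + 1) ≤ N →
      (θ * T ≤ ord n ∧ a < dk (k + 1) n ∧ dk (k + 1) n ≤ b) →
      (fun x => α ≤ x * L / (2 * Real.pi) ∧ x * L / (2 * Real.pi) ≤ β) |ord (n + (k + 1)) - ord n| := by
    rintro k n hn hnk ⟨p1, p2, p3⟩
    have hx : 0 < ord n := SG.ord_pos hn
    have hxy : ord n ≤ ord (n + (k + 1)) := SG.ord_mono hn (by omega)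
    have hyT : ord (n + (k + 1)) ≤ T := SG.ord_mono (by omega) hnk
    set x := ord n with hxd
    set y := ord (n + (k + 1)) with hyd
    have hw : 0 ≤ y - x := by linarith
    show α ≤ |y - x| * L / (2 * Real.pi) ∧ |y - x| * L / (2 * Real.pi) ≤ β
    rw [abs_of_nonneg hw]
    unfold dk at p2 p3
    rw [← hyd, ← hxd, lt_div_iff₀ (by positivity)] at p2
    rw [← hyd, ← hxd, div_le_iff₀ (by positivity)] at p3
    have q1 := xlog_high hx hxy
    have q2 := xlog_low hx hxy
    have q3 : Real.log y ≤ L := Real.log_le_log (by linarith) hyT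
    have q4 : L + Real.log θ ≤ Real.log x := by
      have := Real.log_le_log (by positivity) p1
      rw [Real.log_mul hθ0.ne' (by linarith)] at this
      linarith
    constructor
    · rw [le_div_iff₀ (by positivity)]
      -- a * 2π < (y - x) (L + 1)
      have q5 : a * (2 * Real.pi) ≤ (y - x) * (L + 1) :=
        p2.le.trans (q1.trans (mul_le_mul_of_nonneg_left (by linarith) hw))
      have q6 : α * (L + 1) ≤ a * L := by nlinarith
      have q7 : α * (2 * Real.pi) * (L + 1) ≤ (y - x) * L * (L + 1) := by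
        have r1 := mul_le_mul_of_nonneg_right q6 (show 0 ≤ 2 * Real.pi by positivity)
        have r2 := mul_le_mul_of_nonneg_right q5 (show 0 ≤ L by linarith)
        linarith
      exact le_of_mul_le_mul_right q7 (by linarith)
    · rw [div_le_iff₀ (by positivity)]
      have q5 : (y - x) * (L + Real.log θ + 1) ≤ b * (2 * Real.pi) :=
        (mul_le_mul_of_nonneg_left (by linarith) hw).trans (q2.trans p3)
      have q6 : b * L ≤ β * (L + Real.log θ + 1) := by nlinarith
      have q7 : (y - x) * L * (L + Real.log θ + 1) ≤ β * (2 * Real.pi) * (L + Real.log θ + 1) := by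
        have r1 := mul_le_mul_of_nonneg_right q6 (show 0 ≤ 2 * Real.pi by positivity)
        have r2 := mul_le_mul_of_nonneg_right q5 (show 0 ≤ L by linarith)
        linarith
      exact le_of_mul_le_mul_right q7 (by linarith)
  have hcount := count_pairs (SG.le_NZ_ord d7) M
    (fun x => α ≤ x * L / (2 * Real.pi) ∧ x * L / (2 * Real.pi) ≤ β)
    (fun k n => θ * T ≤ ord n ∧ a < dk (k + 1) n ∧ dk (k + 1) n ≤ b) hP
  have hpairs := cw_pairs RH d1 α β
  -- the exceptional indices
  have hexc : ∀ k ∈ Finset.range M, (N : ℝ) * PK N (k + 1) a b ≤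
      (((Finset.Icc 1 N).filter (fun n => n + (k + 1) ≤ N ∧
        (θ * T ≤ ord n ∧ a < dk (k + 1) n ∧ dk (k + 1) n ≤ b))).card : ℝ) + M + 2 * θ * XX T := by
    intro k hk
    rw [Finset.mem_range] at hk
    unfold PK
    rw [mul_div_cancel₀ _ hN0.ne']
    have hsub : (Finset.Icc 1 N).filter (fun n => a < dk (k + 1) n ∧ dk (k + 1) n ≤ b) ⊆
        ((Finset.Icc 1 N).filter (fun n => n + (k + 1) ≤ N ∧
        (θ * T ≤ ord n ∧ a < dk (k + 1) n ∧ dk (k + 1) n ≤ b)) ∪
        Finset.Ioc (N - (k + 1)) N) ∪ Finset.Icc 1 (NZ (θ * T)) := by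
      intro n hn
      rw [Finset.mem_filter, Finset.mem_Icc] at hn
      rw [Finset.mem_union, Finset.mem_union, Finset.mem_filter, Finset.mem_Icc, Finset.mem_Ioc,
        Finset.mem_Icc]
      by_cases g1 : n + (k + 1) ≤ N
      · by_cases g2 : θ * T ≤ ord n
        · exact Or.inl (Or.inl ⟨hn.1, g1, g2, hn.2⟩)
        · right
          push Not at g2
          exact ⟨hn.1.1, (SG.ord_le_iff hn.1.1 _).1 g2.le⟩
      · left; right
        exact ⟨by omega, hn.1.2⟩
    have hc := Finset.card_le_card hsub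
    have hc2 := (hc.trans (Finset.card_union_le _ _)).trans
      (Nat.add_le_add_right (Finset.card_union_le _ _) _)
    rw [Nat.card_Ioc, Nat.card_Icc, Nat.add_sub_cancel] at hc2
    have hc3 : N - (N - (k + 1)) ≤ M := by omega
    have hc4 : ((Finset.Icc 1 N).filter (fun n => a < dk (k + 1) n ∧ dk (k + 1) n ≤ b)).card ≤
        ((Finset.Icc 1 N).filter (fun n => n + (k + 1) ≤ N ∧
        (θ * T ≤ ord n ∧ a < dk (k + 1) n ∧ dk (k + 1) n ≤ b))).card + M + NZ (θ * T) := by omega
    have hc5 : (((Finset.Icc 1 N).filter (fun n => a < dk (k + 1) n ∧ dk (k + 1) n ≤ b)).card : ℝ) ≤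
        (((Finset.Icc 1 N).filter (fun n => n + (k + 1) ≤ N ∧
        (θ * T ≤ ord n ∧ a < dk (k + 1) n ∧ dk (k + 1) n ≤ b))).card : ℝ) + M + NZ (θ * T) := by
      exact_mod_cast hc4
    linarith
  have hsum := Finset.sum_le_sum hexc
  rw [← Finset.mul_sum, Finset.sum_add_distrib, Finset.sum_add_distrib, Finset.sum_const,
    Finset.sum_const, Finset.card_range, nsmul_eq_mul, nsmul_eq_mul] at hsum
  set S := ∑ k ∈ Finset.range M, PK N (k + 1) a b with hS
  set F := ∑ k ∈ Finset.range M, (((Finset.Icc 1 N).filter (fun n => n + (k + 1) ≤ N ∧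
        (θ * T ≤ ord n ∧ a < dk (k + 1) n ∧ dk (k + 1) n ≤ b))).card : ℝ) with hF
  have hF2 : F ≤ XX T * cw (SS T) (wn T) (xn T) α β := by
    have h3 : 2 * F ≤ (((Ix T ×ˢ Ix T).filter (fun p : ℕ × ℕ =>
      α ≤ |ord p.1 - ord p.2| * Real.log T / (2 * Real.pi) ∧
      |ord p.1 - ord p.2| * Real.log T / (2 * Real.pi) ≤ β)).card : ℝ) := by
      rw [hF]
      exact_mod_cast hcount
    linarith
  have hS0 : 0 ≤ S := Finset.sum_nonneg fun k _ => (PK_mem _ _ _ _).1
  have hS1 : S ≤ M := by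
    have := Finset.sum_le_sum (s := Finset.range M) fun k _ => (PK_mem N (k + 1) a b).2
    rw [Finset.sum_const, Finset.card_range, nsmul_eq_mul, mul_one] at this
    exact this
  have hMM : (M : ℝ) * M ≤ ε / 4 * XX T := by
    have : (M : ℝ) * M * 1 ≤ (M : ℝ) * M * T := by
      apply mul_le_mul_of_nonneg_left (by linarith) (by positivity)
    linarith
  have hθX : (M : ℝ) * (2 * θ * XX T) ≤ ε / 4 * XX T := by
    have : (M : ℝ) * (2 * θ) ≤ ε / 4 := by nlinarith
    nlinarith
  have hNX : S * XX T - ε / 4 * XX T ≤ N * S := by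
    have h5 := (abs_lt.1 d5).1
    have h6 : 1 - ε / (4 * (M + 1)) ≤ (N : ℝ) / XX T := by linarith
    rw [le_div_iff₀ hX] at h6
    have h7 : ε / (4 * (M + 1)) * S ≤ ε / 4 := by
      rw [div_mul_eq_mul_div, div_le_div_iff₀ (by positivity) (by norm_num)]
      nlinarith
    have h8 := mul_le_mul_of_nonneg_right h6 hS0
    have h9 := mul_le_mul_of_nonneg_right h7 hX.le
    have e : (1 - ε / (4 * (M + 1))) * XX T * S = S * XX T - ε / (4 * (M + 1)) * S * XX T := by
      ring
    linarith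
  have hfin : (S - ε) * XX T ≤ cw (SS T) (wn T) (xn T) α β * XX T := by
    have e1 : (S - ε) * XX T = S * XX T - ε * XX T := by ring
    have e2 : cw (SS T) (wn T) (xn T) α β * XX T = XX T * cw (SS T) (wn T) (xn T) α β := by ring
    have e3 := mul_pos hε hX
    linarith
  exact le_of_mul_le_mul_right hfin hX

end Pool.Agent.E8helper29.DT
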