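import Pool.Agent.E8helper29.DT.Auto

set_option autoImplicit false

/-! # The correlation integrals of the determinantal process with a given symbol -/

namespace Pool.Agent.E8helper29.DT

open MeasureTheory Set Filter Topology Matrix
open scoped ComplexOrder

variable {f : ℝ → ℝ}

/-- the matrix of the kernel -/
noncomputable def KM (f : ℝ → ℝ) {m : ℕ} (x : Fin m → ℝ) : Matrix (Fin m) (Fin m) ℂ :=
  Matrix.of fun i j => KK f (x i - x j)

lemma KM_herm {m : ℕ} (x : Fin m → ℝ) : (KM f x).IsHermitian := by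
  ext i j
  show star (KK f (x j - x i)) = KK f (x i - x j)
  rw [← neg_sub (x j) (x i), KK_neg]
  rfl

lemma KM_psd (h : Symb f) {m : ℕ} (x : Fin m → ℝ) : (KM f x).PosSemidef := by
  refine Matrix.PosSemidef.of_dotProduct_mulVec_nonneg (KM_herm x) fun v => ?_
  set w : ℝ → ℂ := fun t => ∑ j, v j * (starRingEnd ℂ) (ph (x j) t) with hw
  have hph : ∀ i j t, ph (x i - x j) t = ph (x i) t * (starRingEnd ℂ) (ph (x j) t) := by
    intro i j t
    rw [← ph_neg]
    unfold ph
    rw [← Complex.exp_add]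
    congr 1
    push_cast
    ring
  have hI : ∀ i j, Integrable fun t => star (v i) * (((f t : ℂ) * ph (x i - x j) t) * v j) :=
    fun i j => ((h.int_ph _).mul_const _).const_mul _
  have e1 : star v ⬝ᵥ ((KM f x) *ᵥ v) = ∫ t, ((f t * ‖w t‖ ^ 2 : ℝ) : ℂ) := by
    have e2 : ∀ t, ((f t * ‖w t‖ ^ 2 : ℝ) : ℂ) =
        ∑ i, ∑ j, star (v i) * (((f t : ℂ) * ph (x i - x j) t) * v j) := by
      intro t
      have e3 : ((‖w t‖ ^ 2 : ℝ) : ℂ) = (starRingEnd ℂ) (w t) * w t := by
        rw [Complex.conj_mul']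
        push_cast
        rfl
      rw [Complex.ofReal_mul, e3, hw]
      simp only
      rw [map_sum, Finset.sum_mul_sum, Finset.mul_sum]
      apply Finset.sum_congr rfl
      intro i _
      rw [Finset.mul_sum]
      apply Finset.sum_congr rfl
      intro j _
      rw [hph, map_mul, Complex.conj_conj]
      show _ * ((starRingEnd ℂ) (v i) * _ * _) = (starRingEnd ℂ) (v i) * _
      ring
    simp_rw [e2]
    rw [integral_finsetSum _ (fun i _ => integrable_finsetSum _ fun j _ => hI i j)]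
    simp only [dotProduct, mulVec, Finset.mul_sum]
    apply Finset.sum_congr rfl
    intro i _
    rw [integral_finsetSum _ (fun j _ => hI i j)]
    apply Finset.sum_congr rfl
    intro j _
    rw [integral_const_mul, integral_mul_const, ← KK_eq]
    rfl
  rw [e1, integral_complex_ofReal]
  have : 0 ≤ ∫ t, f t * ‖w t‖ ^ 2 := integral_nonneg fun t => mul_nonneg (h.nonneg t) (by positivity)
  exact_mod_cast this

/-- the determinants are between `0` and `1` -/
lemma KM_det (h : Symb f) {m : ℕ} (x : Fin m → ℝ) :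
    0 ≤ (KM f x).det.re ∧ (KM f x).det.re ≤ 1 := by
  have hA := KM_psd h x
  have hH := hA.1
  have hd : (KM f x).det = ((∏ i, hH.eigenvalues i : ℝ) : ℂ) := by
    rw [hH.det_eq_prod_eigenvalues]
    push_cast
    rfl
  have hnn : ∀ i, 0 ≤ hH.eigenvalues i := fun i => hA.eigenvalues_nonneg i
  rw [hd, Complex.ofReal_re]
  refine ⟨Finset.prod_nonneg fun i _ => hnn i, ?_⟩
  have htr : ∑ i, hH.eigenvalues i = (m : ℝ) := by
    have h1 := hH.trace_eq_sum_eigenvalues
    have h2 : (KM f x).trace = (m : ℂ) := by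
      unfold Matrix.trace KM
      simp [h.KK_zero]
    rw [h2] at h1
    have h3 : ((m : ℝ) : ℂ) = ((∑ i, hH.eigenvalues i : ℝ) : ℂ) := by
      push_cast
      rw [h1]
      rfl
    exact (Complex.ofReal_injective h3).symm
  calc ∏ i, hH.eigenvalues i ≤ ∏ i, Real.exp (hH.eigenvalues i - 1) :=
        Finset.prod_le_prod (fun i _ => hnn i) fun i _ => by
          have := Real.add_one_le_exp (hH.eigenvalues i - 1)
          linarith
    _ = 1 := by
        rw [← Real.exp_sum, Finset.sum_sub_distrib, htr]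
        simp

lemma KM_cont (h : Symb f) (m : ℕ) : Continuous fun x : Fin m → ℝ => (KM f x).det.re := by
  apply Complex.continuous_re.comp
  apply Continuous.matrix_det
  refine continuous_matrix fun i j => ?_
  exact h.KK_cont.comp ((continuous_apply i).sub (continuous_apply j))

/-- the correlation integrals -/
noncomputable def JK (f : ℝ → ℝ) (m : ℕ) (s : ℝ) : ℝ :=
  ∫ x in Set.univ.pi (fun _ : Fin m => Set.Icc (0 : ℝ) s),
    ((Matrix.of fun i j => KK f (x i - x j)).det).re

lemma JK_pi (m : ℕ) (s : ℝ) : JK f m s = ∫ x, (KM f x).det.re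
    ∂(Measure.pi fun _ : Fin m => volume.restrict (Set.Icc (0 : ℝ) s)) := by
  unfold JK
  rw [← Measure.restrict_pi_pi]
  rfl

lemma JK_zero (s : ℝ) : JK f 0 s = 1 := by
  rw [JK_pi]
  simp [Measure.real]

lemma int_box' {s : ℝ} (n : ℕ) (F : (Fin n → ℝ) → ℝ) (hf : Continuous F) :
    Integrable F (Measure.pi fun _ : Fin n => volume.restrict (Set.Icc (0 : ℝ) s)) := by
  have h : IntegrableOn F (Set.univ.pi fun _ : Fin n => Set.Icc (0 : ℝ) s) volume :=
    hf.continuousOn.integrableOn_compact (isCompact_univ_pi fun _ => isCompact_Icc)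
  unfold IntegrableOn at h
  rw [← Measure.restrict_pi_pi]
  exact h

lemma JK_abs (h : Symb f) (m : ℕ) {s : ℝ} (hs : 0 ≤ s) : 0 ≤ JK f m s ∧ JK f m s ≤ s ^ m := by
  rw [JK_pi]
  refine ⟨integral_nonneg fun x => (KM_det h x).1, ?_⟩
  have h1 := integral_mono (int_box' (s := s) m _ (KM_cont h m)) (integrable_const (1 : ℝ))
    (fun x => (KM_det h x).2)
  refine h1.trans (le_of_eq ?_)
  rw [integral_const, smul_eq_mul, mul_one, measureReal_def, Measure.pi_univ]
  simp [hs]

lemma JK_one (h : Symb f) {s : ℝ} (hs : 0 ≤ s) : JK f 1 s = s := by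
  rw [JK_pi]
  have e : ∀ x : Fin 1 → ℝ, (KM f x).det.re = 1 := by
    intro x
    rw [det_unique]
    simp [KM, h.KK_zero]
  simp_rw [e]
  rw [integral_const, smul_eq_mul, mul_one, measureReal_def, Measure.pi_univ]
  simp [hs]

/-- the density of pairs is even -/
lemma dens_even (u : ℝ) : 1 - ‖KK f (-u)‖ ^ 2 = 1 - ‖KK f u‖ ^ 2 := by
  rw [KK_neg, RCLike.norm_conj]

lemma dens_cont (h : Symb f) : Continuous fun u => 1 - ‖KK f u‖ ^ 2 :=
  continuous_const.sub (h.KK_cont.norm.pow 2)

lemma JK_two (h : Symb f) {s : ℝ} (hs : 0 ≤ s) :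
    JK f 2 s = 2 * ∫ x in (0 : ℝ)..s, ∫ u in (0 : ℝ)..x, (1 - ‖KK f u‖ ^ 2) := by
  set D : ℝ → ℝ := fun u => 1 - ‖KK f u‖ ^ 2 with hD
  have hDc : Continuous D := dens_cont h
  have hDe : ∀ u, D (-u) = D u := dens_even
  have hI : ∀ F : ℝ × ℝ → ℝ, Continuous F → Integrable F
      ((volume.restrict (Set.Icc (0 : ℝ) s)).prod (volume.restrict (Set.Icc (0 : ℝ) s))) := by
    intro F hF
    have h : IntegrableOn F (Set.Icc (0 : ℝ) s ×ˢ Set.Icc (0 : ℝ) s) (volume.prod volume) :=
      hF.continuousOn.integrableOn_compact (isCompact_Icc.prod isCompact_Icc)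
    unfold IntegrableOn at h
    rw [← Measure.prod_restrict] at h
    exact h
  have hmp := measurePreserving_finTwoArrow (volume.restrict (Set.Icc (0 : ℝ) s))
  have h1 : JK f 2 s = ∫ p : ℝ × ℝ, D (p.1 - p.2)
      ∂((volume.restrict (Set.Icc (0 : ℝ) s)).prod (volume.restrict (Set.Icc (0 : ℝ) s))) := by
    rw [JK_pi, ← hmp.integral_comp (MeasurableEquiv.measurableEmbedding _)]
    congr 1
    ext x
    rw [det_fin_two]
    show ((KK f (x 0 - x 0) * KK f (x 1 - x 1) - KK f (x 0 - x 1) * KK f (x 1 - x 0)).re) =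
      D (x 0 - x 1)
    rw [sub_self, sub_self, h.KK_zero, ← neg_sub (x 0) (x 1), KK_neg, Complex.mul_conj']
    simp only [hD, one_mul, Complex.sub_re, Complex.one_re]
    congr 1
    have : ((‖KK f (x 0 - x 1)‖ : ℂ) ^ 2) = ((‖KK f (x 0 - x 1)‖ ^ 2 : ℝ) : ℂ) := by push_cast; rfl
    rw [this, Complex.ofReal_re]
  have hprim : Continuous fun x : ℝ => ∫ u in (0 : ℝ)..x, D u :=
    intervalIntegral.continuous_primitive (fun a b => hDc.intervalIntegrable a b) 0
  have h2 : ∀ x : ℝ, ∫ y in Icc (0 : ℝ) s, D (x - y) =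
      (∫ u in (0 : ℝ)..x, D u) + ∫ u in (0 : ℝ)..(s - x), D u := by
    intro x
    rw [integral_Icc_eq_integral_Ioc, ← intervalIntegral.integral_of_le hs,
      intervalIntegral.integral_comp_sub_left (fun u => D u) x, sub_zero,
      ← intervalIntegral.integral_add_adjacent_intervals (hDc.intervalIntegrable (x - s) 0)
        (hDc.intervalIntegrable 0 x), add_comm]
    congr 1
    have := intervalIntegral.integral_comp_neg (a := 0) (b := s - x) (fun u => D u)
    simp only [hDe, neg_zero, neg_sub] at this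
    exact this.symm
  have c1 : Continuous fun p : ℝ × ℝ => D (p.1 - p.2) :=
    hDc.comp (continuous_fst.sub continuous_snd)
  rw [h1, integral_prod _ (hI _ c1)]
  have h3 : ∀ x : ℝ, ∫ y, D ((x, y).1 - (x, y).2) ∂(volume.restrict (Icc (0 : ℝ) s)) =
      (∫ u in (0 : ℝ)..x, D u) + ∫ u in (0 : ℝ)..(s - x), D u := h2
  simp_rw [h3]
  have c2 : Continuous fun x : ℝ => ∫ u in (0 : ℝ)..(s - x), D u :=
    hprim.comp (continuous_const.sub continuous_id)
  rw [integral_Icc_eq_integral_Ioc, ← intervalIntegral.integral_of_le hs,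
    intervalIntegral.integral_add (hprim.intervalIntegrable _ _) (c2.intervalIntegrable _ _),
    intervalIntegral.integral_comp_sub_left (fun x => ∫ u in (0 : ℝ)..x, D u) s]
  simp only [sub_self, sub_zero]
  ring

/-! ### Counting probabilities -/

/-- the probability that `(0, s)` contains exactly `j` points -/
noncomputable def EJ (f : ℝ → ℝ) (j : ℕ) (s : ℝ) : ℝ :=
  (∑' m : ℕ, (-1 : ℝ) ^ m / (m.factorial : ℝ) * JK f (j + m) s) / (j.factorial : ℝ)

/-- alternating sums -/
lemma alt_choose (n r : ℕ) : ∑ p ∈ Finset.HasAntidiagonal.antidiagonal n,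
    ((p.1.choose r : ℝ) * ((-1) ^ p.2 * (n.choose p.1 : ℝ))) = if n = r then 1 else 0 := by
  rw [Finset.Nat.sum_antidiagonal_eq_sum_range_succ
    (fun i j => ((i.choose r : ℝ) * ((-1) ^ j * (n.choose i : ℝ)))) n]
  rcases lt_or_ge n r with hnr | hnr
  · rw [if_neg (by omega)]
    apply Finset.sum_eq_zero
    intro k hk
    rw [Finset.mem_range] at hk
    rw [Nat.choose_eq_zero_of_lt (by omega)]
    simp
  obtain ⟨d, rfl⟩ := Nat.exists_eq_add_of_le hnr
  rw [show (r + d).succ = r + (d + 1) by omega, Finset.sum_range_add]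
  have h0 : ∑ x ∈ Finset.range r, ((x.choose r : ℝ) * ((-1) ^ (r + d - x) * ((r + d).choose x : ℝ))) = 0 := by
    apply Finset.sum_eq_zero
    intro k hk
    rw [Finset.mem_range] at hk
    rw [Nat.choose_eq_zero_of_lt hk]
    simp
  rw [h0, zero_add]
  have h1 : ∀ x ∈ Finset.range (d + 1),
      (((r + x).choose r : ℝ) * ((-1) ^ (r + d - (r + x)) * ((r + d).choose (r + x) : ℝ))) =
      ((r + d).choose r : ℝ) * (1 ^ x * (-1) ^ (d - x) * (d.choose x : ℝ)) := by
    intro x hx
    rw [Finset.mem_range] at hx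
    have h2 := Nat.choose_mul (n := r + d) (k := r + x) (s := r) (by omega)
    rw [show r + d - r = d by omega, show r + x - r = x by omega] at h2
    have h3 : ((r + d).choose (r + x) : ℝ) * ((r + x).choose r : ℝ) =
        ((r + d).choose r : ℝ) * (d.choose x : ℝ) := by exact_mod_cast h2
    rw [show r + d - (r + x) = d - x by omega, one_pow, one_mul]
    linear_combination (-1 : ℝ) ^ (d - x) * h3
  rw [Finset.sum_congr rfl h1, ← Finset.mul_sum, ← add_pow]
  rcases Nat.eq_zero_or_pos d with hd | hd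
  · subst hd
    simp
  · rw [if_neg (by omega)]
    norm_num
    right
    omega

lemma EJ_term (j m : ℕ) (s : ℝ) : (-1 : ℝ) ^ m / (m.factorial : ℝ) * JK f (j + m) s / (j.factorial : ℝ) =
    (-1) ^ m * ((j + m).choose j : ℝ) * (JK f (j + m) s / ((j + m).factorial : ℝ)) := by
  have h1 : ((j + m).choose j : ℝ) * ((j.factorial : ℝ) * (m.factorial : ℝ)) = ((j + m).factorial : ℝ) := by
    have := Nat.choose_mul_factorial_mul_factorial (n := j + m) (k := j) (by omega)
    rw [show j + m - j = m by omega, mul_assoc] at this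
    exact_mod_cast this
  have h2 : (0 : ℝ) < (j + m).factorial := by exact_mod_cast Nat.factorial_pos _
  have h3 : (0 : ℝ) < j.factorial := by exact_mod_cast Nat.factorial_pos _
  have h4 : (0 : ℝ) < m.factorial := by exact_mod_cast Nat.factorial_pos _
  rw [← h1]
  have h5 : ((j + m).choose j : ℝ) ≠ 0 := by
    intro h0
    rw [h0, zero_mul] at h1
    linarith
  field_simp

/-- the double series -/
noncomputable def dbl (f : ℝ → ℝ) (s : ℝ) (r : ℕ) (p : ℕ × ℕ) : ℝ :=
  (p.1.choose r : ℝ) * ((-1) ^ p.2 / (p.2.factorial : ℝ) * JK f (p.1 + p.2) s / (p.1.factorial : ℝ))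

lemma dbl_abs (h : Symb f) {s : ℝ} (hs : 0 ≤ s) (r : ℕ) (p : ℕ × ℕ) :
    |dbl f s r p| ≤ ((2 * s) ^ p.1 / (p.1.factorial : ℝ)) * (s ^ p.2 / (p.2.factorial : ℝ)) := by
  obtain ⟨h1, h2⟩ := JK_abs h (p.1 + p.2) hs
  have h3 : (p.1.choose r : ℝ) ≤ 2 ^ p.1 := by
    have := Nat.choose_le_two_pow p.1 r
    exact_mod_cast this
  unfold dbl
  have e : |(p.1.choose r : ℝ) * ((-1) ^ p.2 / (p.2.factorial : ℝ) * JK f (p.1 + p.2) s /
      (p.1.factorial : ℝ))| = (p.1.choose r : ℝ) * JK f (p.1 + p.2) s /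
      ((p.2.factorial : ℝ) * (p.1.factorial : ℝ)) := by
    rw [abs_mul, abs_div, abs_mul, abs_div, abs_pow, abs_neg, abs_one, one_pow, abs_of_nonneg h1,
      Nat.abs_cast, Nat.abs_cast, Nat.abs_cast]
    field_simp
  rw [e, div_mul_div_comm, mul_comm (p.2.factorial : ℝ)]
  apply div_le_div_of_nonneg_right _ (by positivity)
  calc (p.1.choose r : ℝ) * JK f (p.1 + p.2) s ≤ 2 ^ p.1 * s ^ (p.1 + p.2) := by gcongr
    _ = _ := by rw [mul_pow, pow_add]; ring

lemma dbl_summ (h : Symb f) {s : ℝ} (hs : 0 ≤ s) (r : ℕ) : Summable (dbl f s r) := by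
  have h1 := (Real.summable_pow_div_factorial (2 * s)).mul_of_nonneg
    (Real.summable_pow_div_factorial s) (fun n => by positivity) (fun n => by positivity)
  exact Summable.of_norm_bounded h1 fun p => dbl_abs h hs r p

/-- the factorial moments -/
lemma EJ_hasSum (h : Symb f) {s : ℝ} (hs : 0 ≤ s) (r : ℕ) :
    HasSum (fun j => (j.choose r : ℝ) * EJ f j s) (JK f r s / (r.factorial : ℝ)) := by
  have hS := dbl_summ h hs r
  have h1 : HasSum (fun j => ∑' m, dbl f s r (j, m)) (∑' p, dbl f s r p) :=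
    hS.hasSum.prod_fiberwise fun j => (hS.prod_factor j).hasSum
  have h2 : ∀ j, ∑' m, dbl f s r (j, m) = (j.choose r : ℝ) * EJ f j s := by
    intro j
    unfold dbl EJ
    simp only
    rw [tsum_mul_left, tsum_div_const]
  simp_rw [h2] at h1
  have h3 : ∑' p, dbl f s r p = JK f r s / (r.factorial : ℝ) := by
    rw [← Finset.HasAntidiagonal.sigmaAntidiagonalEquivProd.tsum_eq (dbl f s r)]
    have hS2 : Summable fun x : Σ n : ℕ, Finset.HasAntidiagonal.antidiagonal n =>
        dbl f s r (Finset.HasAntidiagonal.sigmaAntidiagonalEquivProd x) :=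
      (Finset.HasAntidiagonal.sigmaAntidiagonalEquivProd.summable_iff).2 hS
    rw [hS2.tsum_sigma]
    have h4 : ∀ n : ℕ, ∑' x : Finset.HasAntidiagonal.antidiagonal n,
        dbl f s r (Finset.HasAntidiagonal.sigmaAntidiagonalEquivProd ⟨n, x⟩) =
        if n = r then JK f r s / (r.factorial : ℝ) else 0 := by
      intro n
      rw [tsum_fintype]
      have e1 : ∀ x : Finset.HasAntidiagonal.antidiagonal n, dbl f s r (Finset.HasAntidiagonal.sigmaAntidiagonalEquivProd ⟨n, x⟩) =
          dbl f s r x.1 := fun x => rfl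
      simp_rw [e1]
      rw [Finset.sum_coe_sort (Finset.HasAntidiagonal.antidiagonal n) (fun p => dbl f s r p)]
      have e2 : ∀ p ∈ Finset.HasAntidiagonal.antidiagonal n, dbl f s r p =
          ((p.1.choose r : ℝ) * ((-1) ^ p.2 * (n.choose p.1 : ℝ))) * (JK f n s / (n.factorial : ℝ)) := by
        intro p hp
        rw [Finset.HasAntidiagonal.mem_antidiagonal] at hp
        unfold dbl
        rw [EJ_term, hp]
        ring
      rw [Finset.sum_congr rfl e2, ← Finset.sum_mul, alt_choose]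
      split_ifs with hn
      · rw [hn, one_mul]
      · rw [zero_mul]
    simp_rw [h4]
    rw [tsum_ite_eq]
  rw [h3] at h1
  exact h1

end Pool.Agent.E8helper29.DT
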