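import Pool.Agent.E8helper29.DT.Fred

set_option autoImplicit false

/-! # The laws of the gaps and the density of pairs -/

namespace Pool.Agent.E8helper29.DT

open MeasureTheory Set Filter Topology

variable {f : ℝ → ℝ}

/-- the integrated law of the `k`-step gap -/
noncomputable def QK (f : ℝ → ℝ) (k : ℕ) (t : ℝ) : ℝ :=
  t - k + ∑ j ∈ Finset.range k, ((k : ℝ) - j) * EJ f j t

lemma QK_hasSum (h : Symb f) {t : ℝ} (ht : 0 ≤ t) (k : ℕ) :
    HasSum (fun j : ℕ => ((j - k : ℕ) : ℝ) * EJ f j t) (QK f k t) := by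
  have h0 := EJ_hasSum h ht 0
  have h1 := EJ_hasSum h ht 1
  rw [JK_zero] at h0
  rw [JK_one h ht] at h1
  simp only [Nat.choose_zero_right, Nat.cast_one, one_mul, Nat.factorial_zero, div_one] at h0
  simp only [Nat.choose_one_right, Nat.factorial_one, Nat.cast_one, div_one] at h1
  have h2 : HasSum (fun j : ℕ => if j < k then ((k : ℝ) - j) * EJ f j t else 0)
      (∑ j ∈ Finset.range k, ((k : ℝ) - j) * EJ f j t) := by
    have : HasSum (fun j : ℕ => if j < k then ((k : ℝ) - j) * EJ f j t else 0)
        (∑ j ∈ Finset.range k, if j < k then ((k : ℝ) - j) * EJ f j t else 0) :=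
      hasSum_sum_of_ne_finset_zero (fun j hj => by
        rw [Finset.mem_range] at hj
        exact if_neg hj)
    convert this using 1
    apply Finset.sum_congr rfl
    intro j hj
    rw [if_pos (Finset.mem_range.1 hj)]
  have h3 := (h1.sub (h0.mul_left (k : ℝ))).add h2
  unfold QK
  rw [mul_one] at h3
  have e : (fun j : ℕ => ((j - k : ℕ) : ℝ) * EJ f j t) = fun j : ℕ =>
      (j : ℝ) * EJ f j t - (k : ℝ) * EJ f j t + if j < k then ((k : ℝ) - j) * EJ f j t else 0 := by
    funext j
    split_ifs with hj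
    · rw [Nat.sub_eq_zero_of_le hj.le]
      push_cast
      ring
    · push Not at hj
      rw [Nat.cast_sub hj]
      ring
  rw [e]
  exact h3

lemma sum_sub_le (M j : ℕ) : ∑ k ∈ Finset.range M, (j - (k + 1)) ≤ j.choose 2 ∧
    (j ≤ M → ∑ k ∈ Finset.range M, (j - (k + 1)) = j.choose 2) := by
  have h0 : ∑ k ∈ Finset.range j, (j - (k + 1)) = j.choose 2 := by
    rw [Nat.choose_two_right, ← Finset.sum_range_id, ← Finset.sum_range_reflect (fun i => i) j]
    apply Finset.sum_congr rfl
    intro k _
    show j - (k + 1) = j - 1 - k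
    omega
  have h1 : ∀ m, ∑ k ∈ Finset.range (j + m), (j - (k + 1)) = j.choose 2 := by
    intro m
    induction m with
    | zero => exact h0
    | succ m ih =>
      rw [← add_assoc, Finset.sum_range_succ, ih]
      omega
  constructor
  · rw [← h1 M]
    apply Finset.sum_le_sum_of_subset
    intro k hk
    rw [Finset.mem_range] at hk ⊢
    omega
  · intro hM
    obtain ⟨m, rfl⟩ := Nat.exists_eq_add_of_le hM
    exact h1 m

/-- the sum of the integrated laws -/
theorem QK_sum (h : Symb f) {t : ℝ} (ht : 0 ≤ t) :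
    Tendsto (fun M => ∑ k ∈ Finset.range M, QK f (k + 1) t) atTop
      (𝓝 (∫ x in (0 : ℝ)..t, ∫ u in (0 : ℝ)..x, (1 - ‖KK f u‖ ^ 2))) := by
  have h2 := EJ_hasSum h ht 2
  rw [JK_two h ht] at h2
  have e0 : (2 * ∫ x in (0 : ℝ)..t, ∫ u in (0 : ℝ)..x, (1 - ‖KK f u‖ ^ 2)) / ((Nat.factorial 2 : ℕ) : ℝ) =
      ∫ x in (0 : ℝ)..t, ∫ u in (0 : ℝ)..x, (1 - ‖KK f u‖ ^ 2) := by
    norm_num [Nat.factorial]
  rw [e0] at h2
  have h3 : ∀ M : ℕ, ∑ k ∈ Finset.range M, QK f (k + 1) t =
      ∑' j : ℕ, ((∑ k ∈ Finset.range M, (j - (k + 1)) : ℕ) : ℝ) * EJ f j t := by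
    intro M
    have h4 := hasSum_sum (s := Finset.range M) (fun k _ => QK_hasSum h ht (k + 1))
    rw [← h4.tsum_eq]
    congr 1
    funext j
    rw [Nat.cast_sum, Finset.sum_mul]
  simp_rw [h3]
  rw [← h2.tsum_eq]
  refine tendsto_tsum_of_dominated_convergence (bound := fun j => |(j.choose 2 : ℝ) * EJ f j t|)
    h2.summable.abs (fun j => ?_) (Eventually.of_forall fun M j => ?_)
  · refine tendsto_const_nhds.congr' ?_
    filter_upwards [eventually_ge_atTop j] with M hM
    rw [(sum_sub_le M j).2 hM]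
  · rw [norm_mul, abs_mul, Real.norm_eq_abs, Real.norm_eq_abs, Nat.abs_cast, Nat.abs_cast]
    apply mul_le_mul_of_nonneg_right _ (abs_nonneg _)
    exact_mod_cast (sum_sub_le M j).1

/-- **the laws of the gaps determine the density of pairs from below** -/
theorem law_low (h : Symb f) (G : ℕ → ℝ → ℝ)
    (hG : ∀ k, ∀ t : ℝ, 0 ≤ t → ∫ x in (0 : ℝ)..t, G (k + 1) x = QK f (k + 1) t)
    (hmono : ∀ k, MonotoneOn (G (k + 1)) (Ici 0)) {a b v : ℝ} (ha : 0 ≤ a) (hab : a < b)
    (hv : ∀ M : ℕ, ∑ k ∈ Finset.range M, (G (k + 1) b - G (k + 1) a) ≤ v) :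
    ∫ u in a..b, (1 - ‖KK f u‖ ^ 2) ≤ v := by
  set D : ℝ → ℝ := fun u => 1 - ‖KK f u‖ ^ 2 with hD
  have hDc : Continuous D := dens_cont h
  have hD0 : ∀ u, 0 ≤ D u := fun u => by
    have := pow_le_one₀ (n := 2) (norm_nonneg _) (h.KK_norm_le u)
    simp only [hD]
    linarith
  have hD1 : ∀ u, D u ≤ 1 := fun u => by
    have := sq_nonneg ‖KK f u‖
    simp only [hD]
    linarith
  have hDi : ∀ a b, IntervalIntegrable D volume a b := fun a b => hDc.intervalIntegrable a b
  set I : ℝ → ℝ := fun x => ∫ u in (0 : ℝ)..x, D u with hI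
  have hIc : Continuous I := intervalIntegral.continuous_primitive hDi 0
  have hIsub : ∀ x y, I y - I x = ∫ u in x..y, D u := fun x y => by
    have := intervalIntegral.integral_add_adjacent_intervals (hDi 0 x) (hDi x y)
    simp only [hI]
    linarith
  have hImono : Monotone I := by
    intro x y hxy
    have h1 := hIsub x y
    have h2 : 0 ≤ ∫ u in x..y, D u := intervalIntegral.integral_nonneg hxy fun u _ => hD0 u
    linarith
  have hIlip : ∀ x y, x ≤ y → ∫ u in x..y, D u ≤ y - x := by
    intro x y hxy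
    have h1 := intervalIntegral.integral_mono_on hxy (hDi x y)
      (intervalIntegrable_const (c := (1 : ℝ))) (fun u _ => hD1 u)
    rwa [intervalIntegral.integral_const, smul_eq_mul, mul_one] at h1
  have hGi : ∀ k, ∀ x y : ℝ, 0 ≤ x → 0 ≤ y → IntervalIntegrable (G (k + 1)) volume x y := by
    intro k x y hx hy
    apply MonotoneOn.intervalIntegrable
    apply (hmono k).mono
    intro z hz
    rw [Set.mem_uIcc] at hz
    rcases hz with ⟨h1, -⟩ | ⟨h1, -⟩
    · exact hx.trans h1
    · exact hy.trans h1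
  have hGs : ∀ k, ∀ x y : ℝ, 0 ≤ x → 0 ≤ y →
      ∫ z in x..y, G (k + 1) z = QK f (k + 1) y - QK f (k + 1) x := by
    intro k x y hx hy
    have h1 := intervalIntegral.integral_add_adjacent_intervals (hGi k 0 x le_rfl hx) (hGi k x y hx hy)
    rw [hG k x hx, hG k y hy] at h1
    linarith
  -- the inequality for each step
  have key : ∀ d : ℝ, 0 < d → 2 * d < b - a → ∫ u in (a + d)..(b - d), D u ≤ v := by
    intro d hd hd2
    have h1 : ∀ k, QK f (k + 1) b - QK f (k + 1) (b - d) - (QK f (k + 1) (a + d) - QK f (k + 1) a) ≤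
        d * (G (k + 1) b - G (k + 1) a) := by
      intro k
      rw [← hGs k (b - d) b (by linarith) (by linarith), ← hGs k a (a + d) ha (by linarith)]
      have h2 := intervalIntegral.integral_mono_on (show b - d ≤ b by linarith)
        (hGi k (b - d) b (by linarith) (by linarith))
        (intervalIntegrable_const (c := G (k + 1) b)) (fun z hz =>
          hmono k (show (0 : ℝ) ≤ z by linarith [hz.1]) (show (0 : ℝ) ≤ b by linarith) hz.2)
      have h3 := intervalIntegral.integral_mono_on (show a ≤ a + d by linarith)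
        (intervalIntegrable_const (c := G (k + 1) a))
        (hGi k a (a + d) (by linarith) (by linarith)) (fun z hz =>
          hmono k (show (0 : ℝ) ≤ a by linarith) (show (0 : ℝ) ≤ z by linarith [hz.1]) hz.1)
      rw [intervalIntegral.integral_const, smul_eq_mul] at h2 h3
      nlinarith
    have h4 : ∀ M : ℕ, (∑ k ∈ Finset.range M, QK f (k + 1) b) - (∑ k ∈ Finset.range M, QK f (k + 1) (b - d)) -
        ((∑ k ∈ Finset.range M, QK f (k + 1) (a + d)) - ∑ k ∈ Finset.range M, QK f (k + 1) a) ≤ d * v := by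
      intro M
      have h5 := Finset.sum_le_sum (s := Finset.range M) fun k _ => h1 k
      rw [← Finset.mul_sum] at h5
      rw [Finset.sum_sub_distrib, Finset.sum_sub_distrib, Finset.sum_sub_distrib] at h5
      exact h5.trans (mul_le_mul_of_nonneg_left (hv M) hd.le)
    have h6 := ((QK_sum h (show 0 ≤ b by linarith)).sub (QK_sum h (show 0 ≤ b - d by linarith))).sub
      ((QK_sum h (show 0 ≤ a + d by linarith)).sub (QK_sum h ha))
    have h7 := le_of_tendsto h6 (Eventually.of_forall h4)
    have h8 : (∫ x in (0 : ℝ)..b, I x) - (∫ x in (0 : ℝ)..(b - d), I x) -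
        ((∫ x in (0 : ℝ)..(a + d), I x) - ∫ x in (0 : ℝ)..a, I x) ≤ d * v := h7
    have hIi : ∀ x y, IntervalIntegrable I volume x y := fun x y => hIc.intervalIntegrable x y
    have h9 := intervalIntegral.integral_add_adjacent_intervals (hIi 0 (b - d)) (hIi (b - d) b)
    have h10 := intervalIntegral.integral_add_adjacent_intervals (hIi 0 a) (hIi a (a + d))
    have h11 := intervalIntegral.integral_mono_on (show b - d ≤ b by linarith)
      (intervalIntegrable_const (c := I (b - d))) (hIi (b - d) b) (fun z hz => hImono hz.1)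
    have h12 := intervalIntegral.integral_mono_on (show a ≤ a + d by linarith)
      (hIi a (a + d)) (intervalIntegrable_const (c := I (a + d))) (fun z hz => hImono hz.2)
    rw [intervalIntegral.integral_const, smul_eq_mul] at h11 h12
    rw [← hIsub]
    have h13 : d * (I (b - d) - I (a + d)) ≤ d * v := by nlinarith
    exact le_of_mul_le_mul_left h13 hd
  apply le_of_forall_pos_le_add
  intro ε hε
  set d := min (ε / 2) ((b - a) / 3) with hd
  have hd0 : 0 < d := lt_min (by positivity) (by linarith)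
  have hd1 : d ≤ ε / 2 := min_le_left _ _
  have hd2 : d ≤ (b - a) / 3 := min_le_right _ _
  have h1 := key d hd0 (by linarith)
  have h2 := intervalIntegral.integral_add_adjacent_intervals (hDi a (a + d)) (hDi (a + d) (b - d))
  have h3 := intervalIntegral.integral_add_adjacent_intervals (hDi a (b - d)) (hDi (b - d) b)
  have h4 := hIlip a (a + d) (by linarith)
  have h5 := hIlip (b - d) b (by linarith)
  linarith

end Pool.Agent.E8helper29.DT
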