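import Pool.Agent.E8helper29.DT.Auto
import Pool.Agent.E8helper29.FF.Rigid

set_option autoImplicit false

/-! # The symbol is determined by the lower bounds of the windows -/

namespace Pool.Agent.E8helper29.DT

open MeasureTheory Set Filter Topology
open Pool.Agent.E8helper72.PC
open H370.A2

variable {f : ℝ → ℝ}

lemma Symb.AC_meas (h : Symb f) : Measurable (AC f) := by
  have h1 : Measurable (Function.uncurry fun α t : ℝ => f t * f (t + α)) := by
    unfold Function.uncurry
    exact (h.meas.comp measurable_snd).mul (h.meas.comp (measurable_snd.add measurable_fst))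
  exact (h1.stronglyMeasurable.integral_prod_right).measurable

/-- cosine inversion -/
lemma bl_inv {b : ℝ} {r : ℝ → ℝ} (hr : TF b r) (β : ℝ) :
    ∫ x, bl r x * Real.cos (2 * Real.pi * x * β) = evp r β := by
  set μ : ℝ := |b| + 1 with hμ
  have hz : ∀ x, μ ≤ |x| → r x = 0 := fun x hx => hr.supp x (by linarith [le_abs_self b])
  have hwhole : ∀ c : ℝ → ℝ, ∫ α in (-μ)..μ, r α * c α = ∫ α, r α * c α := by
    intro c
    apply intervalIntegral.integral_eq_integral_of_support_subset
    intro α hα
    by_contra h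
    apply hα
    have : μ ≤ |α| := by
      by_contra h2
      push Not at h2
      obtain ⟨h3, h4⟩ := abs_lt.1 h2
      exact h ⟨by linarith, by linarith⟩
    show r α * c α = 0
    rw [hz α this, zero_mul]
  have e1 : ∀ u, RR r μ u = bl r u := fun u => hwhole _
  obtain ⟨A, hA, hdec⟩ := hr.decay 1
  have hC : ∀ x, |RR r μ x| * x ^ 2 ≤ A := by
    intro x
    rw [e1]
    refine le_trans ?_ (hdec x)
    rw [pow_one]
    apply mul_le_mul_of_nonneg_left _ (abs_nonneg _)
    linarith
  have h := RR_inv hr.cont hz hC β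
  simp_rw [e1] at h
  exact h

/-- Parseval for the pair correlation -/
lemma bl_KK (h : Symb f) {b : ℝ} {r : ℝ → ℝ} (hr : TF b r) :
    Integrable (fun u => bl r u * ‖KK f u‖ ^ 2) ∧
    ∫ u, bl r u * ‖KK f u‖ ^ 2 = ∫ α, AC f α * r α := by
  have hbi := hr.int_bl
  have hbc := bl_cont hr
  have hAi := h.AC_integrable
  have hAm := h.AC_meas
  refine ⟨hbi.mul_bdd (c := 1) (h.KK_cont.norm.pow 2).aestronglyMeasurable
    (Eventually.of_forall fun u => ?_), ?_⟩
  · rw [Real.norm_eq_abs, abs_of_nonneg (by positivity)]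
    exact pow_le_one₀ (norm_nonneg _) (h.KK_norm_le u)
  have hint : Integrable (Function.uncurry fun u α : ℝ =>
      bl r u * (AC f α * Real.cos (2 * Real.pi * u * α))) (volume.prod volume) := by
    refine (hbi.norm.mul_prod hAi.norm).mono' ?_ (Eventually.of_forall fun z => ?_)
    · apply Measurable.aestronglyMeasurable
      unfold Function.uncurry
      exact (hbc.measurable.comp measurable_fst).mul ((hAm.comp measurable_snd).mul
        (by fun_prop : Continuous fun z : ℝ × ℝ => Real.cos (2 * Real.pi * z.1 * z.2)).measurable)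
    · simp only [Function.uncurry]
      rw [norm_mul, norm_mul]
      have := Real.abs_cos_le_one (2 * Real.pi * z.1 * z.2)
      rw [← Real.norm_eq_abs] at this
      calc ‖bl r z.1‖ * (‖AC f z.2‖ * ‖Real.cos (2 * Real.pi * z.1 * z.2)‖) ≤
          ‖bl r z.1‖ * (‖AC f z.2‖ * 1) := by gcongr
        _ = _ := by ring
  have e1 : ∫ u, bl r u * ‖KK f u‖ ^ 2 =
      ∫ u, ∫ α, bl r u * (AC f α * Real.cos (2 * Real.pi * u * α)) := by
    congr 1
    funext u
    rw [integral_const_mul, h.AC_cos]
  rw [e1, integral_integral_swap hint]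
  have e2 : ∀ α, ∫ u, bl r u * (AC f α * Real.cos (2 * Real.pi * u * α)) = AC f α * evp r α := by
    intro α
    rw [← bl_inv hr α, ← integral_const_mul]
    congr 1
    funext u
    ring
  simp_rw [e2]
  obtain ⟨M, hM, hrM⟩ := hr.bdd
  have i1 : Integrable fun α => AC f α * r α :=
    hAi.mul_bdd (c := M) hr.cont.aestronglyMeasurable (Eventually.of_forall fun α => hrM α)
  have i2 : Integrable fun α => AC f α * r (-α) :=
    hAi.mul_bdd (c := M) (hr.cont.comp continuous_neg).aestronglyMeasurable
      (Eventually.of_forall fun α => hrM _)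
  have e3 : ∫ α, AC f α * r (-α) = ∫ α, AC f α * r α := by
    rw [← integral_neg_eq_self (fun α => AC f α * r α)]
    congr 1
    funext α
    rw [AC_even]
  have e4 : ∀ α, AC f α * evp r α = (AC f α * r α + AC f α * r (-α)) / 2 := by
    intro α
    unfold evp
    ring
  simp_rw [e4]
  rw [integral_div, integral_add i1 i2, e3]
  ring

/-- the shifted kernels -/
lemma bl_two {χ : ℝ → ℝ} {b : ℝ} (hχ : TF b χ) (β : ℝ) :
    TF (b + |β|) (fun α => 2 * χ α + (χ (α - β) + χ (α + β))) ∧
    ∀ u, bl (fun α => 2 * χ α + (χ (α - β) + χ (α + β))) u =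
      (2 + 2 * Real.cos (2 * Real.pi * β * u)) * bl χ u := by
  have h1 : TF (b + |β|) (fun α => χ (α - β)) := by
    refine ⟨hχ.cd.comp (contDiff_id.sub contDiff_const), fun α hα => hχ.supp _ ?_⟩
    have := abs_sub_abs_le_abs_sub α β
    linarith
  have h2 : TF (b + |β|) (fun α => χ (α + β)) := by
    refine ⟨hχ.cd.comp (contDiff_id.add contDiff_const), fun α hα => hχ.supp _ ?_⟩
    have := abs_sub_abs_le_abs_sub α (-β)
    rw [abs_neg, sub_neg_eq_add] at this
    linarith
  have h0 : TF (b + |β|) (fun α => 2 * χ α) :=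
    (hχ.const_mul 2).mono (by linarith [abs_nonneg β])
  refine ⟨h0.add (h1.add h2), fun u => ?_⟩
  rw [bl_add h0 (h1.add h2), bl_add h1 h2, bl_const_mul]
  have e1 : bl (fun α => χ (α - β)) u = ∫ α, χ α * Real.cos (2 * Real.pi * (α + β) * u) := by
    unfold bl
    rw [← integral_sub_right_eq_self (fun α : ℝ => χ α * Real.cos (2 * Real.pi * (α + β) * u)) β]
    congr 1
    funext α
    rw [sub_add_cancel]
  have e2 : bl (fun α => χ (α + β)) u = ∫ α, χ α * Real.cos (2 * Real.pi * (α - β) * u) := by
    unfold bl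
    rw [← integral_add_right_eq_self (fun α : ℝ => χ α * Real.cos (2 * Real.pi * (α - β) * u)) β]
    congr 1
    funext α
    rw [add_sub_cancel_right]
  have e5 : bl (fun α => χ (α - β)) u + bl (fun α => χ (α + β)) u =
      2 * Real.cos (2 * Real.pi * β * u) * bl χ u := by
    rw [e1, e2, ← integral_add (hχ.int_mul (by fun_prop)) (hχ.int_mul (by fun_prop))]
    unfold bl
    rw [← integral_const_mul]
    congr 1
    funext α
    have e3 : 2 * Real.pi * (α + β) * u = 2 * Real.pi * α * u + 2 * Real.pi * β * u := by ring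
    have e4 : 2 * Real.pi * (α - β) * u = 2 * Real.pi * α * u - 2 * Real.pi * β * u := by ring
    rw [e3, e4, Real.cos_add, Real.cos_sub]
    ring
  rw [e5]
  ring

/-- the deficit -/
noncomputable def hh (f : ℝ → ℝ) (α : ℝ) : ℝ := 1 - |α| - AC f α

lemma hh_even (α : ℝ) : hh f (-α) = hh f α := by
  unfold hh
  rw [abs_neg, AC_even]

lemma hh_low (h : Symb f) (α : ℝ) : -|α| ≤ hh f α := by
  have := AC_le_one h α
  unfold hh
  linarith

lemma hh_abs (h : Symb f) {α : ℝ} (hα : |α| ≤ 1) : |hh f α| ≤ 1 := by
  have h1 := AC_le_one h α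
  have h2 := AC_nonneg h α
  have h3 := abs_nonneg α
  rw [abs_le]
  unfold hh
  constructor <;> linarith

lemma hh_meas (h : Symb f) : Measurable (hh f) := by
  unfold hh
  exact ((measurable_const.sub measurable_norm).sub h.AC_meas)

lemma hh_ii (h : Symb f) (a b : ℝ) : IntervalIntegrable (hh f) volume a b := by
  unfold hh
  apply IntervalIntegrable.sub
  · exact (by fun_prop : Continuous fun α : ℝ => 1 - |α|).intervalIntegrable _ _
  · exact h.AC_integrable.intervalIntegrable

lemma hh_mul (h : Symb f) {b : ℝ} {r : ℝ → ℝ} (hr : TF b r) :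
    Integrable fun α => r α * hh f α := by
  obtain ⟨M, hM, hrM⟩ := hr.bdd
  have i1 : Integrable fun α => r α * (1 - |α|) := hr.int_mul (by fun_prop)
  have i2 : Integrable fun α => AC f α * r α :=
    h.AC_integrable.mul_bdd (c := M) hr.cont.aestronglyMeasurable
      (Eventually.of_forall fun α => hrM α)
  refine (i1.sub i2).congr (Eventually.of_forall fun α => ?_)
  simp only [Pi.sub_apply]
  unfold hh
  ring

/-- the predicted density of pairs -/
noncomputable def DD (f : ℝ → ℝ) (u : ℝ) : ℝ := 1 - ‖KK f u‖ ^ 2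

lemma DD_nonneg (h : Symb f) (u : ℝ) : 0 ≤ DD f u := by
  unfold DD
  have := pow_le_one₀ (n := 2) (norm_nonneg _) (h.KK_norm_le u)
  linarith

lemma DD_le_one (u : ℝ) : DD f u ≤ 1 := by
  unfold DD
  have := sq_nonneg ‖KK f u‖
  linarith

lemma DD_cont (h : Symb f) : Continuous (DD f) := continuous_const.sub (h.KK_cont.norm.pow 2)

lemma DD_even (u : ℝ) : DD f (-u) = DD f u := by
  unfold DD
  rw [KK_neg, RCLike.norm_conj]

/-- the inequality for the test functions -/
theorem test_ineq {μ : Measure ℝ} [IsLocallyFiniteMeasure μ] (hneg : μ (Iio 0) = 0)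
    (hint : ∀ δ r, TF δ r → Integrable (bl r) μ) (hdiag : 1 ≤ 2 * μ.real {0})
    (hex : ∀ δ r, 0 < δ → δ < 1 → TF δ r → 2 * ∫ u, bl r u ∂μ = r 0 + ∫ α, |α| * r α)
    (h : Symb f) (hlow : ∀ a b, 0 ≤ a → a < b → ∫ u in a..b, DD f u ≤ μ.real (Ioc a b))
    {δ : ℝ} (hδ0 : 0 < δ) (hδ : δ < 1) {r : ℝ → ℝ} (hr : TF δ r) (hpos : ∀ u, 0 ≤ bl r u) :
    ∫ α, r α * hh f α ≤ 0 := by
  set m : Measure ℝ := volume.withDensity fun u => ENNReal.ofReal (DD f u) with hm
  have hmle : m ≤ volume := by
    refine Measure.le_iff.2 fun s hs => ?_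
    rw [hm, withDensity_apply _ hs]
    calc ∫⁻ u in s, ENNReal.ofReal (DD f u) ≤ ∫⁻ u in s, 1 := by
          apply lintegral_mono
          intro u
          exact (ENNReal.ofReal_le_ofReal (DD_le_one u)).trans (by simp)
      _ = volume s := by simp
  have : IsLocallyFiniteMeasure m := Measure.isLocallyFiniteMeasure_of_le hmle
  have hmI : ∀ a b : ℝ, a ≤ b → m (Ioc a b) = ENNReal.ofReal (∫ u in a..b, DD f u) := by
    intro a b hab
    rw [hm, withDensity_apply _ measurableSet_Ioc, intervalIntegral.integral_of_le hab,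
      ofReal_integral_eq_lintegral_ofReal]
    · exact ((DD_cont h).integrableOn_Icc).mono_set Ioc_subset_Icc_self
    · exact Eventually.of_forall (DD_nonneg h)
  obtain ⟨g, hg⟩ := exists_excess μ m 0 (fun a b ha hab => by
    rw [hmI a b hab.le]
    apply ENNReal.ofReal_le_of_le_toReal
    exact hlow a b ha hab)
  have hi := hint δ r hr
  have hE := hex δ r hδ0 hδ hr
  rw [split_zero μ hneg hi] at hE
  have hiv := hr.int_bl
  have him : Integrable (bl r) m := hiv.mono_measure hmle
  have h1 : ∫ u in Ioi 0, bl r u ∂m ≤ ∫ u in Ioi 0, bl r u ∂μ := by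
    have hi2 : Integrable (bl r) (m.restrict (Ioi 0) + g) := by
      rw [← hg]
      exact hi.restrict
    rw [hg, integral_add_measure him.restrict (hi2.mono_measure (Measure.le_add_left le_rfl))]
    have : 0 ≤ ∫ u, bl r u ∂g := integral_nonneg hpos
    linarith
  have h2 : ∫ u in Ioi 0, bl r u ∂m = ∫ u in Ioi 0, DD f u * bl r u := by
    rw [hm, restrict_withDensity measurableSet_Ioi, integral_withDensity_eq_integral_toReal_smul
      (by have := DD_cont h; fun_prop) (Eventually.of_forall fun _ => ENNReal.ofReal_lt_top)]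
    congr 1
    funext u
    rw [ENNReal.toReal_ofReal (DD_nonneg h u), smul_eq_mul]
  have h3 : 2 * ∫ u in Ioi 0, DD f u * bl r u = ∫ u, DD f u * bl r u := by
    rw [← integral_comp_abs (f := fun u => DD f u * bl r u)]
    congr 1
    funext u
    rcases abs_cases u with ⟨h, -⟩ | ⟨h, -⟩
    · rw [h]
    · rw [h, DD_even, bl_neg_arg]
  obtain ⟨hk1, hk2⟩ := bl_KK h hr
  have h4 : ∫ u, DD f u * bl r u = r 0 - ∫ α, AC f α * r α := by
    rw [← hk2]
    have e : ∀ u, DD f u * bl r u = bl r u - bl r u * ‖KK f u‖ ^ 2 := by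
      intro u
      unfold DD
      ring
    simp_rw [e]
    rw [integral_sub hiv hk1]
    congr 1
    have := bl_inv hr 0
    simp only [mul_zero, Real.cos_zero, mul_one] at this
    rw [this]
    unfold evp
    simp
  have h5 : bl r 0 = ∫ β, r β := by
    unfold bl
    simp
  have h6 := hpos 0
  have h7 : bl r 0 ≤ 2 * μ.real {0} * bl r 0 := le_mul_of_one_le_left h6 hdiag
  have h8 : (∫ β, r β) - (∫ α, AC f α * r α) ≤ ∫ α, |α| * r α := by
    rw [← h5]
    rw [h2] at h1
    nlinarith
  obtain ⟨M, hM, hrM⟩ := hr.bdd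
  have i2 : Integrable fun α => AC f α * r α :=
    h.AC_integrable.mul_bdd (c := M) hr.cont.aestronglyMeasurable
      (Eventually.of_forall fun α => hrM α)
  have i3 : Integrable fun α => |α| * r α :=
    (hr.int_mul continuous_abs).congr (Eventually.of_forall fun α => mul_comm _ _)
  have h9 : ∫ α, r α * hh f α = (∫ β, r β) - (∫ α, AC f α * r α) - ∫ α, |α| * r α := by
    have i4 : Integrable fun α => r α - AC f α * r α := hr.integrable.sub i2
    rw [← integral_sub hr.integrable i2, ← integral_sub i4 i3]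
    congr 1
    funext α
    unfold hh
    ring
  rw [h9]
  linarith

set_option maxHeartbeats 1000000 in
/-- the smoothed inequality -/
theorem smooth_ineq (h : Symb f) (htest : ∀ δ : ℝ, 0 < δ → δ < 1 → ∀ r : ℝ → ℝ, TF δ r →
    (∀ u, 0 ≤ bl r u) → ∫ α, r α * hh f α ≤ 0) {e : ℝ} (he : 0 < e) (he4 : e < 1 / 4) :
    ∫ α in (-1 : ℝ)..1, hh f α ≤ 6 * e := by
  obtain ⟨χ, hχ, hχ0, -, hχb, hχp⟩ := FF.exists_kernel2
  set X : ℝ := bl χ 0 with hX
  set ce : ℝ → ℝ := fun α => χ (α / e) with hce
  have hTe : TF e ce := by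
    have := hχ.scale he
    rwa [mul_one] at this
  have hce0 : ∀ α, 0 ≤ ce α := fun α => hχ0 _
  have hblc : ∀ u, bl ce u = e * bl χ (e * u) := fun u => bl_scale χ he u
  have hint_ce : ∫ α, ce α = e * X := by
    have h1 := hblc 0
    rw [mul_zero] at h1
    rw [← h1]
    unfold bl
    simp
  set L : ℝ := 1 - 2 * e with hL
  have hL0 : 0 < L := by linarith
  set J : ℝ → ℝ := fun β => ∫ γ, ce γ * hh f (γ + β) with hJ
  -- integrability of the shifted products
  have hsh : ∀ β, Integrable fun γ => ce γ * hh f (γ + β) := by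
    intro β
    have h1 : TF (e + |β|) (fun α => ce (α - β)) := by
      refine ⟨hTe.cd.comp (contDiff_id.sub contDiff_const), fun α hα => hTe.supp _ ?_⟩
      have := abs_sub_abs_le_abs_sub α β
      linarith
    have h2 := (hh_mul h h1).comp_add_right β
    refine h2.congr (Eventually.of_forall fun γ => ?_)
    simp
  have hJ1 : ∀ β, ∫ α, ce (α - β) * hh f α = J β := by
    intro β
    rw [← integral_add_right_eq_self (fun α => ce (α - β) * hh f α) β]
    simp only [hJ, add_sub_cancel_right]
  have hJ2 : ∀ β, ∫ α, ce (α + β) * hh f α = J (-β) := by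
    intro β
    have := hJ1 (-β)
    simpa using this
  -- the bound of the diagonal term
  have hdiag : -(e * (e * X)) ≤ ∫ α, ce α * hh f α := by
    rw [← hint_ce, ← integral_const_mul, ← integral_neg]
    apply integral_mono
    · exact (hTe.integrable.const_mul e).neg
    · exact hh_mul h hTe
    · intro α
      show -(e * ce α) ≤ ce α * hh f α
      rcases le_or_gt |α| e with h1 | h1
      · have h2 := hh_low h α
        have h3 := hce0 α
        nlinarith
      · rw [hTe.supp α h1]
        simp
  -- the inequality for each shift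
  have hβ : ∀ β ∈ Icc (-L) L, J β + J (-β) ≤ 2 * (e * (e * X)) := by
    intro β hβ
    have hβ' : |β| ≤ L := abs_le.2 hβ
    obtain ⟨hT, hb⟩ := bl_two hTe β
    have h1 := htest (e + |β|) (by positivity) (by linarith) _ hT (fun u => by
      rw [hb, hblc]
      have := Real.neg_one_le_cos (2 * Real.pi * β * u)
      have h2 := hχb (e * u)
      have : 0 ≤ 2 + 2 * Real.cos (2 * Real.pi * β * u) := by linarith
      positivity)
    have i1 := hh_mul h hTe
    have h3 : TF (e + |β|) (fun α => ce (α - β)) := by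
      refine ⟨hTe.cd.comp (contDiff_id.sub contDiff_const), fun α hα => hTe.supp _ ?_⟩
      have := abs_sub_abs_le_abs_sub α β
      linarith
    have h4 : TF (e + |β|) (fun α => ce (α + β)) := by
      refine ⟨hTe.cd.comp (contDiff_id.add contDiff_const), fun α hα => hTe.supp _ ?_⟩
      have := abs_sub_abs_le_abs_sub α (-β)
      rw [abs_neg, sub_neg_eq_add] at this
      linarith
    have i2 := hh_mul h h3
    have i3 := hh_mul h h4
    have e1 : ∫ α, (2 * ce α + (ce (α - β) + ce (α + β))) * hh f α =
        2 * (∫ α, ce α * hh f α) + (J β + J (-β)) := by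
      have i4 : Integrable fun α => ce (α - β) * hh f α + ce (α + β) * hh f α := i2.add i3
      rw [← hJ1 β, ← hJ2 β, ← integral_const_mul, ← integral_add i2 i3,
        ← integral_add (i1.const_mul 2) i4]
      congr 1
      funext α
      ring
    rw [e1] at h1
    linarith
  -- Fubini
  have hfub : Integrable (Function.uncurry fun β γ : ℝ => ce γ * hh f (γ + β))
      ((volume.restrict (Ioc (-L) L)).prod volume) := by
    obtain ⟨M, hM, hrM⟩ := hTe.bdd
    have hk : Integrable (fun z : ℝ × ℝ => (1 : ℝ) * ce z.2)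
        ((volume.restrict (Ioc (-L) L)).prod volume) :=
      (integrable_const (1 : ℝ)).mul_prod hTe.integrable
    refine hk.mono' ?_ ?_
    · apply Measurable.aestronglyMeasurable
      unfold Function.uncurry
      exact (hTe.cont.measurable.comp measurable_snd).mul
        ((hh_meas h).comp (measurable_snd.add measurable_fst))
    · have hae : ∀ᵐ z : ℝ × ℝ ∂((volume.restrict (Ioc (-L) L)).prod volume), z.1 ∈ Ioc (-L) L := by
        have h1 : ∀ᵐ x : ℝ ∂(volume.restrict (Ioc (-L) L)), x ∈ Ioc (-L) L :=
          ae_restrict_mem measurableSet_Ioc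
        exact Measure.quasiMeasurePreserving_fst.ae h1
      filter_upwards [hae] with z hz
      simp only [Function.uncurry]
      rw [one_mul, norm_mul, Real.norm_eq_abs, abs_of_nonneg (hce0 _)]
      rcases le_or_gt |z.2| e with h1 | h1
      · have h2 : |z.2 + z.1| ≤ 1 := by
          have h3 : |z.1| ≤ L := abs_le.2 ⟨hz.1.le, hz.2⟩
          have := abs_add_le z.2 z.1
          linarith
        have h3 := hh_abs h h2
        rw [← Real.norm_eq_abs] at h3
        exact mul_le_of_le_one_right (hce0 _) h3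
      · rw [hTe.supp _ h1]
        simp
  have hJi : IntegrableOn J (Ioc (-L) L) := hfub.integral_prod_left
  have hsw : ∫ β in Ioc (-L) L, J β = ∫ γ, ce γ * ∫ β in (-L)..L, hh f (γ + β) := by
    simp only [hJ]
    rw [integral_integral_swap hfub]
    congr 1
    funext γ
    rw [intervalIntegral.integral_of_le (by linarith), integral_const_mul]
  have hsum : 2 * ∫ β in Ioc (-L) L, J β ≤ 2 * L * (2 * (e * (e * X))) := by
    have e0 : ∫ β in Ioc (-L) L, J β = ∫ β in (-L)..L, J β := by
      rw [intervalIntegral.integral_of_le (by linarith)]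
    have hJii : IntervalIntegrable J volume (-L) L := by
      rw [intervalIntegrable_iff_integrableOn_Ioc_of_le (by linarith)]
      exact hJi
    have hJii' : IntervalIntegrable (fun β => J (-β)) volume (-L) L := by
      have := IntervalIntegrable.comp_sub_left hJii 0
      simp only [zero_sub, neg_neg] at this
      exact this.symm
    have e1 : ∫ β in (-L)..L, J (-β) = ∫ β in (-L)..L, J β := by
      rw [intervalIntegral.integral_comp_neg]
      simp
    have e2 : 2 * ∫ β in (-L)..L, J β = ∫ β in (-L)..L, (J β + J (-β)) := by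
      rw [intervalIntegral.integral_add hJii hJii', e1]
      ring
    rw [e0, e2]
    have h1 := intervalIntegral.integral_mono_on (by linarith : -L ≤ L) (hJii.add hJii')
      (intervalIntegrable_const (c := 2 * (e * (e * X)))) hβ
    rw [intervalIntegral.integral_const, smul_eq_mul] at h1
    linarith
  -- lower bound
  set I1 := ∫ α in (-1 : ℝ)..1, hh f α with hI1
  have hbd : ∀ a b : ℝ, -1 ≤ a → a ≤ b → b ≤ 1 → ∫ α in a..b, hh f α ≤ b - a := by
    intro a b h1 h2 h3
    have h4 := intervalIntegral.integral_mono_on h2 (hh_ii h a b)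
      (intervalIntegrable_const (c := (1 : ℝ))) (fun α hα =>
        (le_abs_self _).trans (hh_abs h (abs_le.2 ⟨by linarith [hα.1], by linarith [hα.2]⟩)))
    rw [intervalIntegral.integral_const, smul_eq_mul, mul_one] at h4
    exact h4
  have hlowJ : e * X * (I1 - 4 * e) ≤ ∫ β in Ioc (-L) L, J β := by
    rw [hsw, ← hint_ce, ← integral_mul_const]
    apply integral_mono
    · exact hTe.integrable.mul_const _
    · have h1 := hfub.swap.integral_prod_left
      refine h1.congr (Eventually.of_forall fun γ => ?_)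
      show ∫ β in Ioc (-L) L, ce γ * hh f (γ + β) = ce γ * ∫ β in (-L)..L, hh f (γ + β)
      rw [intervalIntegral.integral_of_le (by linarith), integral_const_mul]
    · intro γ
      show ce γ * (I1 - 4 * e) ≤ ce γ * ∫ β in (-L)..L, hh f (γ + β)
      rcases le_or_gt |γ| e with h1 | h1
      · apply mul_le_mul_of_nonneg_left _ (hce0 γ)
        obtain ⟨h2, h3⟩ := abs_le.1 h1
        rw [intervalIntegral.integral_comp_add_left (fun α => hh f α) γ]
        have h4 := intervalIntegral.integral_add_adjacent_intervals (hh_ii h (-1) (γ + -L))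
          (hh_ii h (γ + -L) (γ + L))
        have h5 := intervalIntegral.integral_add_adjacent_intervals (hh_ii h (-1) (γ + L))
          (hh_ii h (γ + L) 1)
        have h6 := hbd (-1) (γ + -L) le_rfl (by linarith) (by linarith)
        have h7 := hbd (γ + L) 1 (by linarith) (by linarith) le_rfl
        linarith
      · rw [hTe.supp _ h1]
        simp
  have hfin : e * X * (I1 - 4 * e) ≤ L * (2 * (e * (e * X))) := by linarith
  have hXp : 0 < X := hχp
  have h10 : (e * X) * (I1 - 4 * e) ≤ (e * X) * (L * (2 * e)) := by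
    calc e * X * (I1 - 4 * e) ≤ L * (2 * (e * (e * X))) := hfin
      _ = _ := by ring
  have h11 := le_of_mul_le_mul_left h10 (by positivity)
  nlinarith

/-- **rigidity** -/
theorem rigid {μ : Measure ℝ} [IsLocallyFiniteMeasure μ] (hneg : μ (Iio 0) = 0)
    (hint : ∀ δ r, TF δ r → Integrable (bl r) μ) (hdiag : 1 ≤ 2 * μ.real {0})
    (hex : ∀ δ r, 0 < δ → δ < 1 → TF δ r → 2 * ∫ u, bl r u ∂μ = r 0 + ∫ α, |α| * r α)
    (h : Symb f) (hlow : ∀ a b, 0 ≤ a → a < b → ∫ u in a..b, DD f u ≤ μ.real (Ioc a b)) :
    ∃ c : ℝ, f =ᵐ[volume] (Icc c (c + 1)).indicator 1 := by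
  apply h.interval
  have h1 : ∫ α in (-1 : ℝ)..1, hh f α ≤ 0 := by
    apply le_of_forall_pos_le_add
    intro ε hε
    rw [zero_add]
    set e := min (ε / 6) (1 / 5) with he
    have he0 : 0 < e := lt_min (by positivity) (by norm_num)
    have he1 : e ≤ ε / 6 := min_le_left _ _
    have he2 : e ≤ 1 / 5 := min_le_right _ _
    have := smooth_ineq h (fun δ h0 h1 r hr hp =>
      test_ineq hneg hint hdiag hex h hlow h0 h1 hr hp) he0 (by linarith)
    linarith
  have h2 : ∫ α in (-1 : ℝ)..1, hh f α = 1 - ∫ α in (-1 : ℝ)..1, AC f α := by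
    unfold hh
    rw [intervalIntegral.integral_sub]
    · congr 1
      have h3 : ∫ α in (-1 : ℝ)..1, (1 - |α|) = (∫ α in (-1 : ℝ)..1, (1 : ℝ)) - ∫ α in (-1 : ℝ)..1, |α| := by
        rw [intervalIntegral.integral_sub]
        · simp
        · exact continuous_abs.intervalIntegrable _ _
      rw [h3]
      have h4 := intervalIntegral.integral_add_adjacent_intervals
        (continuous_abs.intervalIntegrable (μ := volume) (-1 : ℝ) 0)
        (continuous_abs.intervalIntegrable (μ := volume) (0 : ℝ) 1)
      have h5 : ∫ α in (-1 : ℝ)..0, |α| = 1 / 2 := by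
        rw [intervalIntegral.integral_congr (g := fun α : ℝ => -α) (fun α hα => by
          rw [Set.uIcc_of_le (by norm_num)] at hα
          exact abs_of_nonpos hα.2)]
        rw [intervalIntegral.integral_neg, integral_id]
        norm_num
      have h6 : ∫ α in (0 : ℝ)..1, |α| = 1 / 2 := by
        rw [intervalIntegral.integral_congr (g := fun α : ℝ => α) (fun α hα => by
          rw [Set.uIcc_of_le (by norm_num)] at hα
          exact abs_of_nonneg hα.1)]
        rw [integral_id]
        norm_num
      rw [← h4, h5, h6]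
      simp
      norm_num
    · exact (by fun_prop : Continuous fun α : ℝ => 1 - |α|).intervalIntegrable _ _
    · exact h.AC_integrable.intervalIntegrable
  have hA : MeasurableSet {α : ℝ | 1 < |α|} :=
    (isOpen_lt continuous_const continuous_abs).measurableSet
  have h3 := integral_add_compl hA h.AC_integrable
  rw [h.AC_int_one] at h3
  have h4 : ∫ α in {α : ℝ | 1 < |α|}ᶜ, AC f α = ∫ α in (-1 : ℝ)..1, AC f α := by
    rw [intervalIntegral.integral_of_le (by norm_num), ← integral_Icc_eq_integral_Ioc]
    congr 2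
    ext α
    simp only [mem_compl_iff, Set.mem_ofPred_eq, not_lt, mem_Icc]
    exact abs_le
  have h5 : 0 ≤ ∫ α in {α : ℝ | 1 < |α|}, AC f α := integral_nonneg fun α => AC_nonneg h α
  linarith

end Pool.Agent.E8helper29.DT
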