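import Pool.Agent.E8helper29.DT.Bridge
import Pool.Agent.E8helper29.DT.Rig
import Pool.Agent.E8helper29.DT.Law

set_option autoImplicit false

/-! # Determinantal limit laws of the gaps -/

namespace Pool.Agent.E8helper29.DT

open MeasureTheory Set Filter Topology
open SG (ord NZ)
open Pool.Agent.E8helper72.PC

variable {f : ℝ → ℝ}

/-- the limit measures satisfy Montgomery's theorem -/
lemma mu_exact (RH : RiemannHypothesis) {U : Filter ℝ} [U.NeBot] (hU : U ≤ atTop) {μ : Measure ℝ}
    (hμ : LimM U SS wn xn μ) (δ : ℝ) (r : ℝ → ℝ) (hδ0 : 0 < δ) (hδ : δ < 1) (hr : TF δ r) :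
    2 * ∫ u, bl r u ∂μ = r 0 + ∫ α, |α| * r α := by
  have hRH : ∀ s : ℂ, riemannZeta s = 0 → 0 < s.re → s.re < 1 → s.re = 1 / 2 := by
    intro s h0 h1 h2
    apply RH s h0
    · rintro ⟨n, hn⟩
      rw [hn] at h1
      simp at h1
      have : (0 : ℝ) ≤ n := Nat.cast_nonneg n
      linarith
    · intro h
      rw [h] at h2
      simp at h2
  have hM : MM r = r 0 + ∫ α, |α| * r α := by
    rw [FF.MM_gen hr]
    congr 2
    funext α
    unfold FF.wt
    rcases le_or_gt |α| 1 with h | h
    · rw [min_eq_left h]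
    · rw [hr.supp α (by linarith), mul_zero, mul_zero]
  have h1 := full_RH hRH hδ0 hδ hr hM
  obtain ⟨B, hB, hdec⟩ := hr.decay 1
  simp only [pow_one] at hdec
  have h2 := (hμ.lim (bl r) (bl_cont hr) ⟨B, hdec⟩).const_mul 2
  have h3 : Tendsto (fun T => QS (ZT T) (ZT T) (Real.log T) (bl r) / XX T) U
      (𝓝 (2 * ∫ u, bl r u ∂μ)) := by
    refine h2.congr fun T => ?_
    rw [sum_QS]
    ring
  rw [← hM]
  exact tendsto_nhds_unique h3 (h1.mono_left hU)

/-- **only the sine process is possible** -/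
theorem main (RH : RiemannHypothesis) (h : Symb f) (G : ℕ → ℝ → ℝ)
    (hG : ∀ k, ∀ t : ℝ, 0 ≤ t → ∫ x in (0 : ℝ)..t, G (k + 1) x = QK f (k + 1) t)
    (Nj : ℕ → ℕ) (hNj : Tendsto Nj atTop atTop)
    (hlim : ∀ k, ∀ a b : ℝ, 0 ≤ a → a < b →
      Tendsto (fun j => PK (Nj j) (k + 1) a b) atTop (𝓝 (G (k + 1) b - G (k + 1) a))) :
    ∃ c : ℝ, f =ᵐ[volume] (Icc c (c + 1)).indicator 1 := by
  have hT : Tendsto (fun j => ord (Nj j)) atTop atTop := SG.ord_tendsto.comp hNj
  set l : Filter ℝ := Filter.map (fun j => ord (Nj j)) atTop with hl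
  have hlt : l ≤ atTop := hT
  have hlne : l.NeBot := Filter.map_neBot
  have hU : ((Ultrafilter.of l : Ultrafilter ℝ) : Filter ℝ) ≤ l := Ultrafilter.of_le l
  obtain ⟨μ, p, hμ, hd⟩ := FF.exists_mu hlt (Ultrafilter.of l) hU
  have := hd.lf
  have hw := hU (FF.hwn hlt)
  refine rigid hd.neg hd.int (by linarith [hd.diag, hd.nonneg])
    (fun δ r h0 h1 hr => mu_exact RH (hU.trans hlt) hμ δ r h0 h1 hr) h ?_
  have hmono : ∀ k, MonotoneOn (G (k + 1)) (Ici 0) := by
    intro k x hx y hy hxy
    rcases hxy.lt_or_eq with h1 | h1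
    · have h2 := ge_of_tendsto (hlim k x y hx h1) (Eventually.of_forall fun j => (PK_mem _ _ _ _).1)
      linarith
    · rw [h1]
  intro a b ha hab
  -- the inner windows
  have key : ∀ a1 b1 : ℝ, a < a1 → a1 < b1 → b1 < b →
      ∫ u in a1..b1, (1 - ‖KK f u‖ ^ 2) ≤ μ.real (Ioc a b) := by
    intro a1 b1 h1 h2 h3
    refine law_low h G hG hmono (by linarith) h2 fun M => ?_
    apply le_of_forall_pos_sub_le
    intro ε hε
    have hbr := bridge RH M (α := (a + a1) / 2) (a := a1) (b := b1) (β := (b1 + b) / 2)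
      (ε := ε / 2) (by linarith) (by linarith) h2 (by linarith) (by positivity)
    have hsum : Tendsto (fun j => ∑ k ∈ Finset.range M, PK (Nj j) (k + 1) a1 b1) atTop
        (𝓝 (∑ k ∈ Finset.range M, (G (k + 1) b1 - G (k + 1) a1))) :=
      tendsto_finsetSum _ fun k _ => hlim k a1 b1 (by linarith) h2
    have hev : ∀ᶠ j in atTop, (∑ k ∈ Finset.range M, (G (k + 1) b1 - G (k + 1) a1)) - ε ≤
        cw (SS (ord (Nj j))) (wn (ord (Nj j))) (xn (ord (Nj j))) ((a + a1) / 2) ((b1 + b) / 2) := by
      filter_upwards [hNj.eventually hbr, hsum.eventually (lt_mem_nhds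
        (show (∑ k ∈ Finset.range M, (G (k + 1) b1 - G (k + 1) a1)) - ε / 2 <
          ∑ k ∈ Finset.range M, (G (k + 1) b1 - G (k + 1) a1) by linarith))] with j h4 h5
      linarith
    have hevl : ∀ᶠ T in l, (∑ k ∈ Finset.range M, (G (k + 1) b1 - G (k + 1) a1)) - ε ≤
        cw (SS T) (wn T) (xn T) ((a + a1) / 2) ((b1 + b) / 2) := by
      rw [hl, Filter.eventually_map]
      exact hev
    exact hμ.le_of_windows hw (show a < (a + a1) / 2 by linarith)
      (show (b1 + b) / 2 < b by linarith) (hU hevl)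
  show ∫ u in a..b, (1 - ‖KK f u‖ ^ 2) ≤ μ.real (Ioc a b)
  set D : ℝ → ℝ := fun u => 1 - ‖KK f u‖ ^ 2 with hD
  have hDc : Continuous D := dens_cont h
  have hDi : ∀ a b, IntervalIntegrable D volume a b := fun a b => hDc.intervalIntegrable a b
  have hIlip : ∀ x y, x ≤ y → ∫ u in x..y, D u ≤ y - x := by
    intro x y hxy
    have h1 := intervalIntegral.integral_mono_on hxy (hDi x y)
      (intervalIntegrable_const (c := (1 : ℝ))) (fun u _ => DD_le_one u)
    rwa [intervalIntegral.integral_const, smul_eq_mul, mul_one] at h1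
  apply le_of_forall_pos_le_add
  intro ε hε
  set d := min (ε / 2) ((b - a) / 3) with hd'
  have hd0 : 0 < d := lt_min (by positivity) (by linarith)
  have hd1 : d ≤ ε / 2 := min_le_left _ _
  have hd2 : d ≤ (b - a) / 3 := min_le_right _ _
  have h1 := key (a + d) (b - d) (by linarith) (by linarith) (by linarith)
  have h2 := intervalIntegral.integral_add_adjacent_intervals (hDi a (a + d)) (hDi (a + d) (b - d))
  have h3 := intervalIntegral.integral_add_adjacent_intervals (hDi a (b - d)) (hDi (b - d) b)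
  have h4 := hIlip a (a + d) (by linarith)
  have h5 := hIlip (b - d) b (by linarith)
  linarith

/-! ### The sine kernel -/

/-- the kernel of an interval -/
lemma KK_interval {c : ℝ} (hf : f =ᵐ[volume] (Icc c (c + 1)).indicator 1) (x : ℝ) :
    KK f x = Complex.exp (((Real.pi * (2 * c + 1) * x : ℝ) : ℂ) * Complex.I) *
      (Real.sinc (Real.pi * x) : ℂ) := by
  have e1 : KK f x = ∫ t in c..(c + 1), ph x t := by
    rw [KK_eq, intervalIntegral.integral_of_le (by linarith), ← integral_Icc_eq_integral_Ioc,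
      ← integral_indicator measurableSet_Icc]
    apply integral_congr_ae
    filter_upwards [hf] with t ht
    rw [ht]
    by_cases h : t ∈ Icc c (c + 1)
    · rw [indicator_of_mem h, indicator_of_mem h]
      simp
    · rw [indicator_of_notMem h, indicator_of_notMem h]
      simp
  rw [e1]
  rcases eq_or_ne x 0 with hx | hx
  · subst hx
    unfold ph
    simp
  have hne : (2 * Real.pi * x * Complex.I : ℂ) ≠ 0 := by
    have := Real.pi_ne_zero
    simp [hx]
  have e2 : ∫ t in c..(c + 1), ph x t = ∫ t in c..(c + 1), Complex.exp ((2 * Real.pi * x * Complex.I) * t) := by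
    congr 1
    funext t
    unfold ph
    congr 1
    ring
  rw [e2, integral_exp_mul_complex hne, Real.sinc_of_ne_zero (mul_ne_zero Real.pi_ne_zero hx)]
  have e3 : Complex.exp (2 * Real.pi * x * Complex.I * ((c + 1 : ℝ) : ℂ)) =
      Complex.exp (((Real.pi * (2 * c + 1) * x : ℝ) : ℂ) * Complex.I) *
        Complex.exp (((Real.pi * x : ℝ) : ℂ) * Complex.I) := by
    rw [← Complex.exp_add]
    congr 1
    push_cast
    ring
  have e4 : Complex.exp (2 * Real.pi * x * Complex.I * ((c : ℝ) : ℂ)) =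
      Complex.exp (((Real.pi * (2 * c + 1) * x : ℝ) : ℂ) * Complex.I) *
        Complex.exp (-((Real.pi * x : ℝ) : ℂ) * Complex.I) := by
    rw [← Complex.exp_add]
    congr 1
    push_cast
    ring
  rw [e3, e4, ← mul_sub]
  have e5 : Complex.exp (((Real.pi * x : ℝ) : ℂ) * Complex.I) -
      Complex.exp (-((Real.pi * x : ℝ) : ℂ) * Complex.I) =
      2 * Complex.I * ((Real.sin (Real.pi * x) : ℝ) : ℂ) := by
    rw [Complex.ofReal_sin, Complex.sin]
    have : Complex.I * Complex.I = -1 := Complex.I_mul_I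
    linear_combination (-(Complex.exp (-((Real.pi * x : ℝ) : ℂ) * Complex.I) -
      Complex.exp (((Real.pi * x : ℝ) : ℂ) * Complex.I))) * this
  rw [e5]
  push_cast
  have hpi : (Real.pi : ℂ) ≠ 0 := by exact_mod_cast Real.pi_ne_zero
  have hx' : (x : ℂ) ≠ 0 := by exact_mod_cast hx
  have hI := Complex.I_ne_zero
  field_simp

/-- the correlation integrals of the sine process -/
lemma JK_interval {c : ℝ} (hf : f =ᵐ[volume] (Icc c (c + 1)).indicator 1) (m : ℕ) (s : ℝ) :
    JK f m s = ∫ x in Set.univ.pi (fun _ : Fin m => Set.Icc (0 : ℝ) s),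
      (Matrix.of fun i j => Real.sinc (Real.pi * (x i - x j))).det := by
  unfold JK
  congr 1
  funext x
  set u : Fin m → ℂ := fun i => Complex.exp (((Real.pi * (2 * c + 1) * x i : ℝ) : ℂ) * Complex.I) with hu
  have hune : ∀ i, u i ≠ 0 := fun i => Complex.exp_ne_zero _
  set S : Matrix (Fin m) (Fin m) ℂ := Matrix.of fun i j => ((Real.sinc (Real.pi * (x i - x j)) : ℝ) : ℂ) with hS
  have e1 : (Matrix.of fun i j => KK f (x i - x j)) = Matrix.of fun i j =>
      u i * (Matrix.of fun i j => (u j)⁻¹ * S i j) i j := by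
    ext i j
    simp only [Matrix.of_apply, hS]
    rw [KK_interval hf, ← mul_assoc]
    congr 1
    simp only [hu]
    rw [← Complex.exp_neg, ← Complex.exp_add]
    congr 1
    push_cast
    ring
  rw [e1, Matrix.det_mul_column, Matrix.det_mul_row, ← mul_assoc, ← Finset.prod_mul_distrib]
  have e2 : ∏ i, u i * (u i)⁻¹ = 1 := Finset.prod_eq_one fun i _ => mul_inv_cancel₀ (hune i)
  rw [e2, one_mul]
  have e3 : S = (Matrix.of fun i j => Real.sinc (Real.pi * (x i - x j))).map Complex.ofRealHom := by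
    ext i j
    simp [hS]
  rw [e3]
  have e4 := (Complex.ofRealHom).map_det (Matrix.of fun i j => Real.sinc (Real.pi * (x i - x j)))
  have e5 : (Complex.ofRealHom.mapMatrix (Matrix.of fun i j => Real.sinc (Real.pi * (x i - x j)))) =
      (Matrix.of fun i j => Real.sinc (Real.pi * (x i - x j))).map Complex.ofRealHom := rfl
  rw [← e5, ← e4]
  simp

end Pool.Agent.E8helper29.DT
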