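import Pool.Agent.Y750.OM.Main1
import Pool.Agent.E8helper72.PC.ZBlock

set_option autoImplicit false

/-! # Montgomery's theorem on the Riemann hypothesis for all zeros up to `T` -/

namespace Pool.Agent.E8helper29.DT

open Complex Filter Topology Set MeasureTheory
open H370 (Zf mult mem_Zf good_zeta zset JJ JJ_cont NN NN_eq)
open H370.A2 (JN)
open Pool.Agent.Y750.OM

/-- on the critical line the two mean squares are equal -/
lemma JJ_JB {A B : ℝ} (hA : 1 ≤ A) (hRH : ∀ s ∈ Zf riemannZeta A B, s.re = 1 / 2) (u : ℝ) :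
    JJ riemannZeta A B u = JB (Zf riemannZeta A B) (fun s => (mult riemannZeta s : ℝ)) u := by
  have hDD : ∀ t, DD (Zf riemannZeta A B) (fun s => (mult riemannZeta s : ℝ)) 1 u t = 0 := by
    intro t
    unfold DD
    apply Finset.sum_eq_zero
    intro s hs
    have h0 : cfac (s.re - 1 / 2) (s.im - t) 1 u = 0 := by
      unfold cfac
      rw [hRH s hs]
      simp
    rw [h0]
    simp
  unfold H370.JJ JB
  congr 1
  funext t
  have h := AA_split (B := B) hA 1 u t
  rw [hDD t, add_zero, mul_one] at h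
  rw [h]

set_option maxHeartbeats 4000000 in
/-- the pair sum of a block -/
theorem pair_RH (hRH : ∀ s : ℂ, riemannZeta s = 0 → 0 < s.re → s.re < 1 → s.re = 1 / 2)
    (δ : ℝ) (hδ : 0 < δ) (hδκ : δ < 1) (r : ℝ → ℝ) (K : ℝ) (hlip : ∀ x y, |r x - r y| ≤ K * |x - y|)
    (hs : ∀ α, δ < |α| → r α = 0) (Cf0 : ℝ) (hf0 : ∀ x, |rh r x| * (1 + x ^ 2) ≤ Cf0)
    (ε : ℝ) (hε : 0 < ε) : ∃ T0 : ℝ, 10 ≤ T0 ∧ ∀ T : ℝ, T0 ≤ T →
    |PO (rh r) T (2 * T) (Real.log T) - NN riemannZeta T (2 * T) * (r 0 + ∫ α : ℝ, |α| * r α)| ≤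
      ε * NN riemannZeta T (2 * T) := by
  classical
  obtain ⟨Ce, hCe, hedge⟩ := edges
  obtain ⟨Cg, hCg, hgauss⟩ := degauss
  obtain ⟨Cn, hCn, hcnt⟩ := edge_count
  have hK : 0 ≤ K := by
    have h1 := hlip 1 0
    have h2 := abs_nonneg (r 1 - r 0)
    simp at h1
    linarith
  have hrc : Continuous r := by
    have : LipschitzWith K.toNNReal r := by
      refine LipschitzWith.of_dist_le_mul fun x y => ?_
      rw [Real.dist_eq, Real.dist_eq, Real.coe_toNNReal _ hK]
      exact hlip x y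
    exact this.continuous
  set c : ℝ := r 0 + ∫ α : ℝ, |α| * r α with hc
  have hcI : ∫ α : ℝ, |α| * r α = ∫ α in (-δ)..δ, |α| * r α :=
    whole_int hδ fun α hα => by rw [hs α hα, mul_zero]
  obtain ⟨Cf, hCf, hf⟩ : ∃ Cf : ℝ, 0 < Cf ∧ ∀ x, |rh r x| * (1 + x ^ 2) ≤ Cf :=
    ⟨|Cf0| + 1, by positivity, fun x => (hf0 x).trans (by linarith [le_abs_self Cf0])⟩
  have hz : ∀ x, δ ≤ |x| → r x = 0 := by
    intro α hα
    rcases hα.lt_or_eq with h | h
    · exact hs α h
    · have hcl : IsClosed {x : ℝ | r x = 0} := isClosed_eq hrc continuous_const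
      rcases le_total 0 α with h0 | h0
      · rw [abs_of_nonneg h0] at h
        have h1 : Set.Ioi δ ⊆ {x : ℝ | r x = 0} := fun x hx => hs x (lt_of_lt_of_le hx (le_abs_self x))
        have h2 := closure_minimal h1 hcl
        rw [closure_Ioi] at h2
        exact h2 (by rw [← h]; exact Set.self_mem_Ici)
      · rw [abs_of_nonpos h0] at h
        have h1 : Set.Iio (-δ) ⊆ {x : ℝ | r x = 0} := fun x hx => hs x (by
          have : x < -δ := hx
          have := neg_abs_le x
          linarith)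
        have h2 := closure_minimal h1 hcl
        rw [closure_Iio] at h2
        exact h2 (by rw [h, neg_neg]; exact Set.self_mem_Iic)
  set ε1 : ℝ := min (1 / 100) (ε / (40 * (|c| + 1))) with hε1
  have hε10 : 0 < ε1 := lt_min (by norm_num) (by positivity)
  have hε1a : ε1 ≤ 1 / 100 := min_le_left _ _
  have hε1b : ε1 * (|c| + 1) ≤ ε / 40 := by
    have : ε1 ≤ ε / (40 * (|c| + 1)) := min_le_right _ _
    rw [le_div_iff₀ (by positivity)] at this
    linarith
  have hε1c : ε1 ≤ ε / 40 := by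
    have := abs_nonneg c
    nlinarith
  have hε1d : |c| * ε1 ≤ ε / 40 := by nlinarith
  obtain ⟨Ta, hTa, hpsi⟩ := psi_full δ ε1 hδ (by linarith) hε10 r K hlip hz
  have ev1 : ∀ᶠ T : ℝ in atTop, Real.log T ≤ min (ε / (56 * Ce * Cf)) (1 / 100) * T := by
    have h := Real.isLittleO_log_id_atTop.bound
      (show 0 < min (ε / (56 * Ce * Cf)) (1 / 100) from lt_min (by positivity) (by norm_num))
    filter_upwards [h, eventually_ge_atTop 1] with T hT hT1
    rw [Real.norm_of_nonneg (Real.log_nonneg hT1), id, Real.norm_of_nonneg (by linarith)] at hT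
    exact hT
  have ev2 : ∀ᶠ T : ℝ in atTop, 8 * Cg * Cf / ε + 1 ≤ Real.log T :=
    Real.tendsto_log_atTop.eventually_ge_atTop _
  obtain ⟨Tc, hTc⟩ := ((ev1.and ev2).and (eventually_ge_atTop
    (max (56 * |c| * Cn / ε) (max (100 * Cn) 100)))).exists_forall_of_atTop
  refine ⟨max Ta Tc, hTa.trans (le_max_left _ _), fun T hT => ?_⟩
  have hTTa : Ta ≤ T := (le_max_left _ _).trans hT
  obtain ⟨⟨e1, e2⟩, e3⟩ := hTc T ((le_max_right _ _).trans hT)
  have e3a : 56 * |c| * Cn / ε ≤ T := (le_max_left _ _).trans e3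
  have e3b : 100 * Cn ≤ T := ((le_max_left _ _).trans (le_max_right _ _)).trans e3
  have hT100 : 100 ≤ T := ((le_max_right _ _).trans (le_max_right _ _)).trans e3
  have e1a : Real.log T ≤ ε / (56 * Ce * Cf) * T :=
    e1.trans (mul_le_mul_of_nonneg_right (min_le_left _ _) (by linarith))
  obtain ⟨p1, p2⟩ := hpsi T hTTa
  have p4 := hedge T (by linarith) (rh r) Cf hCf.le hf
  have p5 := hgauss T (by linarith) (rh r) Cf hCf.le hf
  have p6 := hcnt T (by linarith)
  set L := Real.log T with hL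
  have hL0 : 0 < L := Real.log_pos (by linarith)
  have hpi := Real.pi_pos
  have hpi3 := Real.pi_gt_three
  have hpi4 := Real.pi_lt_d4
  set N : ℝ := (NN riemannZeta T (2 * T) : ℝ) with hN
  set N1 : ℝ := (NN riemannZeta (T + 1) (2 * T - 1) : ℝ) with hN1
  set S := Zf riemannZeta (T + 1) (2 * T - 1) with hS
  set Z := Zf riemannZeta T (2 * T) with hZ
  set m : ℂ → ℝ := fun s => (mult riemannZeta s : ℝ) with hm
  have hm0 : ∀ s, 0 ≤ m s := fun s => Nat.cast_nonneg _
  have hSZ : S ⊆ Z := by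
    intro s hs
    rw [hS, mem_Zf good_zeta (by linarith)] at hs
    rw [hZ, mem_Zf good_zeta (by linarith)]
    obtain ⟨g1, g2, g3, g4, g5⟩ := hs
    exact ⟨g1, g2, by linarith, by linarith, g5⟩
  have hNe : N = ∑ s ∈ Z, m s := by
    rw [hN, NN_eq good_zeta (by linarith)]; push_cast; rfl
  have hN1e : N1 = ∑ s ∈ S, m s := by
    rw [hN1, NN_eq good_zeta (by linarith)]; push_cast; rfl
  have hNN1 : N = ∑ s ∈ Z \ S, m s + N1 := by
    rw [hNe, hN1e, Finset.sum_sdiff hSZ]
  have hE0 : 0 ≤ ∑ s ∈ Z \ S, m s := Finset.sum_nonneg fun s _ => hm0 s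
  set E : ℝ := ∑ s ∈ Z \ S, m s with hE
  have hEL : E ≤ Cn * L := p6
  set M : ℝ := (T - 2) * L / (2 * Real.pi) with hM
  have hM0 : 0 < M := by
    rw [hM]
    have : 0 < T - 2 := by linarith
    positivity
  set X : ℝ := T * L with hX
  have hX0 : 0 < X := by positivity
  have hMX : 6 * M ≤ X := by
    have : M * (2 * Real.pi) = (T - 2) * L := by rw [hM]; field_simp
    nlinarith
  have hMX2 : (T - 2) * L ≤ 6.2832 * M := by
    have : M * (2 * Real.pi) = (T - 2) * L := by rw [hM]; field_simp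
    nlinarith
  obtain ⟨p1a, p1b⟩ := abs_le.1 p1
  have hε1M : ε1 * M ≤ 1 / 100 * M := by gcongr
  have hXN1 : X ≤ 7 * N1 := by
    have h2 : 99 / 100 * M ≤ N1 := by linarith
    have h3 : T * L ≤ 1.03 * ((T - 2) * L) := by
      rw [← mul_assoc]
      apply mul_le_mul_of_nonneg_right _ hL0.le
      linarith
    have h4 : X ≤ 1.03 * (6.2832 * M) := by
      rw [hX]; linarith
    linarith
  have hN1N : N1 ≤ N := by linarith
  have hXN : X ≤ 7 * N := by linarith
  have hN0 : 0 < N := by linarith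
  have hN10 : 0 < N1 := by linarith
  have hEX : E ≤ 1 / 100 * X := by
    have : Cn * L ≤ 1 / 100 * (T * L) := by nlinarith
    linarith
  have hNX : N ≤ X := by
    have : N1 ≤ 101 / 100 * M := by linarith
    linarith
  have hMN : M ≤ 2 * N := by
    have : 99 / 100 * M ≤ N1 := by linarith
    linarith
  -- the chain
  set P := PO (rh r) T (2 * T) L with hP
  set P1 := PO (rh r) (T + 1) (2 * T - 1) L with hP1
  set G := ∫ α in (-δ)..δ, r α * (JB S m (α * L) / Real.sqrt Real.pi) with hG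
  set A := ∫ α in (-δ)..δ, r α * JN riemannZeta (T + 1) (2 * T - 1) (α * L) with hA
  have q1 : |P - P1| ≤ ε / 8 * N := by
    refine p4.trans ?_
    have h2 : Ce * Cf * L ^ 2 ≤ ε / 56 * X := by
      have h3 : L * (56 * Ce * Cf) ≤ ε * T := by
        rw [div_mul_eq_mul_div, le_div_iff₀ (by positivity)] at e1a
        exact e1a
      have h4 : L * (56 * Ce * Cf) * L ≤ ε * T * L := by gcongr
      rw [hX]
      nlinarith only [h4]
    calc Ce * Cf * L ^ 2 ≤ ε / 56 * X := h2
      _ ≤ ε / 56 * (7 * N) := by gcongr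
      _ = ε / 8 * N := by ring
  have q2 : |G - P1| ≤ ε / 8 * N := by
    rw [hG, JB_int hrc hδ.le hs]
    refine p5.trans ?_
    have h2 : Cg * Cf / L ≤ ε / 8 := by
      rw [div_le_iff₀ hL0]
      have h3 : 8 * Cg * Cf / ε ≤ L := by linarith
      rw [div_le_iff₀ hε] at h3
      linarith
    exact mul_le_mul h2 hN1N hN10.le (by positivity)
  have q3 : |A - G| = 0 := by
    have hS1 : ∀ s ∈ Zf riemannZeta (T + 1) (2 * T - 1), s.re = 1 / 2 := by
      intro s hs'
      rw [mem_Zf good_zeta (by linarith)] at hs'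
      exact hRH s hs'.2.2.2.2 hs'.1 hs'.2.1
    have h2 : A = G := by
      rw [hA, hG]
      refine intervalIntegral.integral_congr fun α _ => ?_
      simp only [JN]
      rw [JJ_JB (by linarith) hS1]
    rw [h2, sub_self, abs_zero]
  have q4 : |A - M * c| ≤ ε / 20 * N := by
    have h2 : c = r 0 + ∫ α in (-δ)..δ, |α| * r α := by rw [hc, hcI]
    rw [h2]
    refine p2.trans ?_
    calc ε1 * M ≤ ε / 40 * (2 * N) := by gcongr
      _ = ε / 20 * N := by ring
  have q5 : |M * c - N * c| ≤ (ε / 8 + ε / 20) * N := by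
    rw [← sub_mul, abs_mul]
    have h2 : |M - N| ≤ ε1 * M + Cn * L := by
      rw [abs_le]
      constructor <;> linarith
    have h3 : |c| * (Cn * L) ≤ ε / 8 * N := by
      rw [div_le_iff₀ hε] at e3a
      have h4 : 56 * |c| * Cn * L ≤ T * ε * L := by gcongr
      have h5 : |c| * (Cn * L) ≤ ε / 56 * X := by
        rw [hX]
        nlinarith only [h4]
      calc |c| * (Cn * L) ≤ ε / 56 * X := h5
        _ ≤ ε / 56 * (7 * N) := by gcongr
        _ = ε / 8 * N := by ring
    have h4 : |c| * (ε1 * M) ≤ ε / 20 * N := by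
      calc |c| * (ε1 * M) = (|c| * ε1) * M := by ring
        _ ≤ ε / 40 * (2 * N) := by
            have : 0 ≤ |c| * ε1 := by positivity
            gcongr
        _ = _ := by ring
    calc |M - N| * |c| ≤ (ε1 * M + Cn * L) * |c| := by gcongr
      _ = |c| * (Cn * L) + |c| * (ε1 * M) := by ring
      _ ≤ _ := by linarith
  have hfin := chain5 P P1 G A (M * c) (N * c)
  refine hfin.trans ?_
  have hεN : 0 ≤ ε * N := by positivity
  linarith


open Pool.Agent.E8helper72.PC

/-- the pair sums of the dyadic blocks -/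
theorem block_RH (hRH : ∀ s : ℂ, riemannZeta s = 0 → 0 < s.re → s.re < 1 → s.re = 1 / 2)
    {δ : ℝ} (hδ : 0 < δ) (hδ1 : δ < 1) {r : ℝ → ℝ} (hr : TF δ r) (hM : MM r = r 0 + ∫ α : ℝ, |α| * r α)
    {ε : ℝ} (hε : 0 < ε) : ∀ᶠ A : ℝ in atTop,
    |QS (Zf riemannZeta A (2 * A)) (Zf riemannZeta A (2 * A)) (Real.log A) (Pool.Agent.E8helper72.PC.bl r) -
      MM r * XX A| ≤ ε * XX A := by
  obtain ⟨K, hK⟩ := hr.lip
  obtain ⟨A0, hA0, hdec⟩ := hr.decay 1
  simp only [pow_one] at hdec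
  obtain ⟨T0, hT0, h1⟩ := pair_RH hRH δ hδ hδ1 r K hK hr.supp _ (Pool.Agent.Y750.OM.rh_of_bl hdec)
    (ε / 4) (by positivity)
  obtain ⟨e, he⟩ : ∃ e : ℝ, e = min 1 (ε / (2 * (|MM r| + 1))) := ⟨_, rfl⟩
  have he0 : 0 < e := by rw [he]; positivity
  have he1 : e ≤ 1 := by rw [he]; exact min_le_left _ _
  have he2 : |MM r| * e ≤ ε / 2 := by
    have h2 : e ≤ ε / (2 * (|MM r| + 1)) := by rw [he]; exact min_le_right _ _
    have h3 := abs_nonneg (MM r)
    calc |MM r| * e ≤ (|MM r| + 1) * (ε / (2 * (|MM r| + 1))) := by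
          apply mul_le_mul (by linarith) h2 he0.le (by linarith)
      _ = ε / 2 := by field_simp
  filter_upwards [eventually_ge_atTop T0, block_count e he0, eventually_ge_atTop 10] with A h2 h3 h4
  have hX := XX_pos h4
  have h5 := h1 A h2
  have hNN : (NN riemannZeta A (2 * A) : ℝ) = ∑ s ∈ Zf riemannZeta A (2 * A), mz s := by
    rw [NN_eq good_zeta (by linarith)]
    push_cast
    rfl
  rw [hNN, ← hM] at h5
  rw [QS_PO]
  set N := ∑ s ∈ Zf riemannZeta A (2 * A), mz s with hN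
  have hN0 : 0 ≤ N := Finset.sum_nonneg fun s _ => mz_nonneg s
  have hN2 : N ≤ 2 * XX A := by
    have := (abs_le.1 h3).2
    nlinarith
  have h6 : |PO (rh r) A (2 * A) (Real.log A) - MM r * XX A| ≤
      |PO (rh r) A (2 * A) (Real.log A) - N * MM r| + |MM r| * |N - XX A| := by
    have e1 : PO (rh r) A (2 * A) (Real.log A) - MM r * XX A =
        (PO (rh r) A (2 * A) (Real.log A) - N * MM r) + MM r * (N - XX A) := by ring
    rw [e1, ← abs_mul]
    exact abs_add_le _ _
  have h7 : ε / 4 * N ≤ ε / 4 * (2 * XX A) :=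
    mul_le_mul_of_nonneg_left hN2 (by positivity)
  have h8 : |MM r| * |N - XX A| ≤ |MM r| * (e * XX A) :=
    mul_le_mul_of_nonneg_left h3 (abs_nonneg _)
  have h9 : |MM r| * (e * XX A) ≤ ε / 2 * XX A := by
    rw [← mul_assoc]
    exact mul_le_mul_of_nonneg_right he2 hX.le
  linarith

/-- **Montgomery's theorem for all zeros up to `T`** -/
theorem full_RH (hRH : ∀ s : ℂ, riemannZeta s = 0 → 0 < s.re → s.re < 1 → s.re = 1 / 2)
    {δ : ℝ} (hδ : 0 < δ) (hδ1 : δ < 1) {r : ℝ → ℝ} (hr : TF δ r) (hM : MM r = r 0 + ∫ α : ℝ, |α| * r α) :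
    Tendsto (fun T => QS (ZT T) (ZT T) (Real.log T) (Pool.Agent.E8helper72.PC.bl r) / XX T) atTop
      (𝓝 (MM r)) := by
  rw [Metric.tendsto_nhds]
  intro ε hε
  obtain ⟨K, hK⟩ := pair_recur hr (ε / 4) (by linarith)
  have hbl : ∀ᶠ A : ℝ in atTop, |QS (Zf riemannZeta A (2 * A)) (Zf riemannZeta A (2 * A))
      (Real.log A) (Pool.Agent.E8helper72.PC.bl r) - MM r * XX A| / XX A ≤ ε / 4 := by
    filter_upwards [block_RH hRH hδ hδ1 hr hM (show 0 < ε / 4 by linarith),
      eventually_ge_atTop 10] with A h1 h2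
    rw [div_le_iff₀ (XX_pos h2)]
    exact h1
  have hall : ∀ᶠ T : ℝ in atTop, ∀ k ∈ Finset.Icc 1 K,
      |QS (Zf riemannZeta (T / 2 ^ k) (2 * (T / 2 ^ k))) (Zf riemannZeta (T / 2 ^ k)
        (2 * (T / 2 ^ k))) (Real.log (T / 2 ^ k)) (Pool.Agent.E8helper72.PC.bl r) - MM r * XX (T / 2 ^ k)| /
        XX (T / 2 ^ k) ≤ ε / 4 := by
    rw [Filter.eventually_all_finset]
    intro k _
    exact ev_div hbl (2 ^ k) (by positivity)
  filter_upwards [hK, hall, eventually_ge_atTop 10] with T h1 h2 h3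
  have h4 := h1 (ε / 4) (by linarith) (fun k hk1 hk2 => h2 k (Finset.mem_Icc.2 ⟨hk1, hk2⟩))
  have hX := XX_pos h3
  rw [Real.dist_eq]
  have e1 : QS (ZT T) (ZT T) (Real.log T) (Pool.Agent.E8helper72.PC.bl r) / XX T - MM r =
      (QS (ZT T) (ZT T) (Real.log T) (Pool.Agent.E8helper72.PC.bl r) - MM r * XX T) / XX T := by field_simp
  rw [e1, abs_div, abs_of_pos hX]
  linarith

end Pool.Agent.E8helper29.DT
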